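import Pool.Agent.Helper21.LR.Main4

/-!
MP_6358c9_nt: the abstract descent, part 5 (iteration and the main theorem).
-/

namespace Pool.Agent.Helper21.LR

namespace Sys

variable {m : ℕ} {C : ℝ} {X₀ : ℕ}

/-- the infimum of `τ_X` over the varieties which are good at level `X` -/
noncomputable def qinf (S : Sys m C X₀) (X : ℕ) : ℝ :=
  sInf {x : ℝ | ∃ Y, S.val Y (S.tau X Y) ∧ x = S.tau X Y}

lemma qset_nonempty (S : Sys m C X₀) (X : ℕ) :
    {x : ℝ | ∃ Y, S.val Y (S.tau X Y) ∧ x = S.tau X Y}.Nonempty :=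
  ⟨S.tau X S.top, S.top, S.val_top _, rfl⟩

lemma qset_bdd (S : Sys m C X₀) {X : ℕ} (hX : 1 ≤ X) :
    BddBelow {x : ℝ | ∃ Y, S.val Y (S.tau X Y) ∧ x = S.tau X Y} :=
  ⟨1, by rintro x ⟨Y, -, rfl⟩; exact S.one_le_tau hX Y⟩

lemma qinf_le (S : Sys m C X₀) {X : ℕ} (hX : 1 ≤ X) {Y : S.V} (h : S.val Y (S.tau X Y)) :
    S.qinf X ≤ S.tau X Y := csInf_le (S.qset_bdd hX) ⟨Y, h, rfl⟩

lemma one_le_qinf (S : Sys m C X₀) {X : ℕ} (hX : 1 ≤ X) : 1 ≤ S.qinf X :=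
  le_csInf (S.qset_nonempty X) (by rintro x ⟨Y, -, rfl⟩; exact S.one_le_tau hX Y)

lemma exists_near_inf (S : Sys m C X₀) {X : ℕ} (hX : 1 ≤ X) :
    ∃ Y, S.val Y (S.tau X Y) ∧ S.tau X Y ≤ 2 * S.qinf X := by
  have h1 := S.one_le_qinf hX
  obtain ⟨x, ⟨Y, hY, rfl⟩, hx⟩ := exists_lt_of_csInf_lt (S.qset_nonempty X)
    (show S.qinf X < 2 * S.qinf X by linarith)
  exact ⟨Y, hY, hx.le⟩

/-- the main theorem -/
theorem main (hm : 1 ≤ m) (hC : 1 ≤ C) (S : Sys m C X₀) :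
    ∃ c : ℝ, 0 < c ∧ ∀ R : ℝ, S.Succ c R := by
  have hg := S.g1_pos hC
  have hg2 := S.g2_pos hC
  have hCpos : 0 < C := by linarith
  obtain ⟨κ, hκ0, hκ1, X₁, hdesc⟩ := S.descend hC
  obtain ⟨E, hE, N₀, hkey⟩ := S.key_trick hC κ hκ0
  have hEpos : (0 : ℝ) < E := by exact_mod_cast (by omega : 0 < E)
  -- E'
  obtain ⟨E', hE'⟩ := exists_nat_gt (max 2 (8 / S.g1))
  have hE'2 : (2 : ℝ) < E' := lt_of_le_of_lt (le_max_left _ _) hE'
  have hE'g : 8 < S.g1 * E' := by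
    have : 8 / S.g1 < E' := lt_of_le_of_lt (le_max_right _ _) hE'
    rw [div_lt_iff₀ hg] at this; linarith
  have hE'2n : 2 ≤ E' := by exact_mod_cast hE'2.le
  obtain ⟨P, hP⟩ : ∃ P : ℕ, P = E * E' := ⟨_, rfl⟩
  have hP2 : 2 ≤ P := by rw [hP]; nlinarith
  have hPpos : (0 : ℝ) < P := by exact_mod_cast (by omega : 0 < P)
  have hP1 : (1 : ℝ) ≤ P := by exact_mod_cast (by omega : 1 ≤ P)
  set c₆ : ℝ := S.g2 * S.g1 / (C ^ 2 * (E : ℝ) ^ m) with hc₆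
  have hc₆0 : 0 < c₆ := by positivity
  obtain ⟨K, hK⟩ := exists_nat_gt (max 1 (4 * (P : ℝ) ^ m / (κ * c₆)))
  have hK1 : (1 : ℝ) < K := lt_of_le_of_lt (le_max_left _ _) hK
  have hK1n : 1 ≤ K := by exact_mod_cast hK1.le
  have hKP : 4 * (P : ℝ) ^ m ≤ κ * c₆ * K := by
    have : 4 * (P : ℝ) ^ m / (κ * c₆) < K := lt_of_le_of_lt (le_max_right _ _) hK
    rw [div_lt_iff₀ (by positivity)] at this; linarith
  obtain ⟨c, hc0, hsucc⟩ := S.succ_of_A hC hm E K hE hK1n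
  refine ⟨c, hc0, fun R => ?_⟩
  by_contra hfail
  -- threshold
  obtain ⟨M, hM⟩ := exists_nat_gt (max (4 * R / S.g1) (8 * C / S.g1))
  set j₁ : ℕ := max (max X₁ N₀) (max (max X₀ 2) M) with hj₁
  -- for j ≥ j₁ we have P^j ≥ j ≥ ...
  have hstep : ∀ j : ℕ, j₁ ≤ j → 2 * (P : ℝ) ^ (m + 1) * S.qinf (P ^ j) ≤ S.qinf (P ^ (j + 1)) := by
    intro j hj
    set N : ℕ := E' * P ^ j with hN
    set X : ℕ := P ^ (j + 1) with hX
    have hXN : X = E * N := by rw [hX, hN, pow_succ, hP]; ring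
    have hPj : j < P ^ j := Nat.lt_pow_self (by omega)
    have hPj1 : 1 ≤ P ^ j := by omega
    have hNj : j ≤ N := by rw [hN]; nlinarith
    have hXj : j ≤ X := by rw [hXN]; nlinarith
    have hj1 : X₁ ≤ j := le_trans (le_trans (le_max_left _ _) (le_max_left _ _)) hj
    have hj2 : N₀ ≤ j := le_trans (le_trans (le_max_right _ _) (le_max_left _ _)) hj
    have hj3 : max X₀ 2 ≤ j := le_trans (le_trans (le_max_left _ _) (le_max_right _ _)) hj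
    have hj4 : M ≤ j := le_trans (le_trans (le_max_right _ _) (le_max_right _ _)) hj
    have hN0 : max X₀ 2 ≤ N := hj3.trans hNj
    have hN2 : 2 ≤ N := le_trans (le_max_right _ _) hN0
    have hX1 : 1 ≤ X := by have := le_max_right X₀ 2; omega
    have hNpos : (0 : ℝ) < N := by exact_mod_cast (by omega : 0 < N)
    have hN1' : (1 : ℝ) ≤ N := by exact_mod_cast (by omega : 1 ≤ N)
    have hMN : (M : ℝ) ≤ N := by exact_mod_cast hj4.trans hNj
    have hNR : R ≤ S.g1 / 4 * N := by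
      have : 4 * R / S.g1 < N := lt_of_lt_of_le (lt_of_le_of_lt (le_max_left _ _) hM) hMN
      rw [div_lt_iff₀ hg] at this; linarith
    have hNC : 8 * C ≤ S.g1 * N := by
      have : 8 * C / S.g1 < N := lt_of_lt_of_le (lt_of_le_of_lt (le_max_right _ _) hM) hMN
      rw [div_lt_iff₀ hg] at this; linarith
    obtain ⟨Y₀, hY₀, hY₀le⟩ := S.exists_near_inf hX1
    obtain ⟨Z, hZ0, hZval, hZle⟩ := hdesc X (hj1.trans hXj) (S.tau X Y₀)
      (fun Y hY => hY₀le.trans (by have := S.qinf_le hX1 hY; linarith)) Y₀ hY₀ le_rfl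
    rw [hXN] at hZval
    obtain ⟨Y, T, Q, h1, h2, h3, h4, h5⟩ := hkey N (hj2.trans hNj) Z hZ0 hZval
    rcases S.caseAB hC E K hE hK1n N hN0 Z hZ0 Y T Q h1 h2 h3 with ⟨Z', z1, z2, z3⟩ | hB
    · exfalso
      apply hfail
      obtain ⟨Z₁, b, b1, b2, b3⟩ := hsucc N (by omega) Z Y Z' h4 h5 z1 z2 z3
      exact ⟨Z₁, b, hNR.trans b1, b2, b3⟩
    · have htY := S.one_le_t Y
      -- Y is good at the level P^j
      have htau : S.tau (P ^ j) Y = ((P ^ j : ℕ) : ℝ) ^ (S.dim Y + 1) * S.t Y := rfl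
      have hPjN : ((P ^ j : ℕ) : ℝ) * E' = N := by rw [hN]; push_cast; ring
      have hval : S.val Y (S.tau (P ^ j) Y) := by
        refine S.val_anti Y _ _ ?_ (S.close Y _ (S.near_sub Z Y _ h1.subW h5))
        have e1 : S.tau (P ^ j) Y ≤ S.g1 / 8 * (N : ℝ) ^ (S.dim Y + 1) * S.t Y := by
          have hNpow : (N : ℝ) ^ (S.dim Y + 1) =
              ((P ^ j : ℕ) : ℝ) ^ (S.dim Y + 1) * (E' : ℝ) ^ (S.dim Y + 1) := by
            rw [← hPjN, mul_pow]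
          rw [htau, hNpow]
          have e2 : (E' : ℝ) ≤ (E' : ℝ) ^ (S.dim Y + 1) := by
            calc (E' : ℝ) = (E' : ℝ) ^ 1 := (pow_one _).symm
              _ ≤ _ := pow_le_pow_right₀ (by linarith) (by omega)
          have e3 : 1 ≤ S.g1 / 8 * (E' : ℝ) ^ (S.dim Y + 1) := by
            calc (1 : ℝ) ≤ S.g1 / 8 * E' := by linarith
              _ ≤ _ := by gcongr
          calc ((P ^ j : ℕ) : ℝ) ^ (S.dim Y + 1) * S.t Y
              = 1 * (((P ^ j : ℕ) : ℝ) ^ (S.dim Y + 1) * S.t Y) := by ring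
            _ ≤ (S.g1 / 8 * (E' : ℝ) ^ (S.dim Y + 1)) *
                (((P ^ j : ℕ) : ℝ) ^ (S.dim Y + 1) * S.t Y) := by gcongr
            _ = _ := by ring
        have e4 : C * S.t Y ≤ S.g1 / 8 * (N : ℝ) ^ (S.dim Y + 1) * S.t Y := by
          have e5 : (N : ℝ) ≤ (N : ℝ) ^ (S.dim Y + 1) := by
            calc (N : ℝ) = (N : ℝ) ^ 1 := (pow_one _).symm
              _ ≤ _ := pow_le_pow_right₀ hN1' (by omega)
          have e6 : C ≤ S.g1 / 8 * (N : ℝ) ^ (S.dim Y + 1) := by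
            calc C ≤ S.g1 / 8 * N := by linarith
              _ ≤ _ := by gcongr
          gcongr
        linarith
      have hq := S.qinf_le hPj1 hval
      -- tau at the two levels
      have hXR : (X : ℝ) = P * ((P ^ j : ℕ) : ℝ) := by rw [hX]; push_cast; ring
      have hrel : S.tau X Y = (P : ℝ) ^ (S.dim Y + 1) * S.tau (P ^ j) Y := by
        unfold tau; rw [hXR, mul_pow]; ring
      rw [← hXN] at hB
      have hchain : κ * (c₆ * K * S.tau X Y) ≤ 2 * S.qinf X := by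
        calc κ * (c₆ * K * S.tau X Y) ≤ κ * S.tau X Z := by gcongr
          _ ≤ S.tau X Y₀ := hZle
          _ ≤ _ := hY₀le
      have hPm : (P : ℝ) ^ 1 ≤ (P : ℝ) ^ (S.dim Y + 1) := pow_le_pow_right₀ hP1 (by omega)
      have hq0 : 0 ≤ S.qinf (P ^ j) := by linarith [S.one_le_qinf hPj1]
      calc 2 * (P : ℝ) ^ (m + 1) * S.qinf (P ^ j)
          = (4 * (P : ℝ) ^ m) * ((P : ℝ) ^ 1 * S.qinf (P ^ j)) / 2 := by ring
        _ ≤ (κ * c₆ * K) * ((P : ℝ) ^ (S.dim Y + 1) * S.tau (P ^ j) Y) / 2 := by gcongr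
        _ = κ * (c₆ * K * S.tau X Y) / 2 := by rw [hrel]; ring
        _ ≤ 2 * S.qinf X / 2 := by gcongr
        _ = S.qinf X := by ring
  -- iterate
  have hiter : ∀ n : ℕ, (2 * (P : ℝ) ^ (m + 1)) ^ n * S.qinf (P ^ j₁) ≤ S.qinf (P ^ (j₁ + n)) := by
    intro n
    induction n with
    | zero => simp
    | succ n ih =>
      calc (2 * (P : ℝ) ^ (m + 1)) ^ (n + 1) * S.qinf (P ^ j₁)
          = (2 * (P : ℝ) ^ (m + 1)) * ((2 * (P : ℝ) ^ (m + 1)) ^ n * S.qinf (P ^ j₁)) := by ring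
        _ ≤ (2 * (P : ℝ) ^ (m + 1)) * S.qinf (P ^ (j₁ + n)) := by gcongr
        _ ≤ S.qinf (P ^ (j₁ + n + 1)) := hstep (j₁ + n) (by omega)
  have hup : ∀ n : ℕ, S.qinf (P ^ (j₁ + n)) ≤
      ((P : ℝ) ^ (m + 1)) ^ n * (((P : ℝ) ^ j₁) ^ (m + 1) * S.t S.top) := by
    intro n
    have h1 := S.qinf_le (X := P ^ (j₁ + n)) (Nat.one_le_pow _ _ (by omega)) (S.val_top _)
    unfold tau at h1
    rw [S.dim_top] at h1
    refine h1.trans (le_of_eq ?_)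
    push_cast
    rw [← mul_assoc]
    congr 1
    rw [← pow_mul, ← pow_mul, ← pow_mul, ← pow_add]
    congr 1
    ring
  obtain ⟨n, hn⟩ := pow_unbounded_of_one_lt (((P : ℝ) ^ j₁) ^ (m + 1) * S.t S.top)
    (by norm_num : (1 : ℝ) < 2)
  have h1 := hiter n
  have h2 := hup n
  have hq1 := S.one_le_qinf (X := P ^ j₁) (Nat.one_le_pow _ _ (by omega))
  have h3 : (2 * (P : ℝ) ^ (m + 1)) ^ n ≤
      ((P : ℝ) ^ (m + 1)) ^ n * (((P : ℝ) ^ j₁) ^ (m + 1) * S.t S.top) := by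
    calc (2 * (P : ℝ) ^ (m + 1)) ^ n = (2 * (P : ℝ) ^ (m + 1)) ^ n * 1 := by ring
      _ ≤ (2 * (P : ℝ) ^ (m + 1)) ^ n * S.qinf (P ^ j₁) := by gcongr
      _ ≤ _ := h1.trans h2
  rw [mul_pow] at h3
  have h4 : (2 : ℝ) ^ n ≤ ((P : ℝ) ^ j₁) ^ (m + 1) * S.t S.top := by
    have hpos : 0 < ((P : ℝ) ^ (m + 1)) ^ n := by positivity
    have : (2 : ℝ) ^ n * ((P : ℝ) ^ (m + 1)) ^ n ≤
        (((P : ℝ) ^ j₁) ^ (m + 1) * S.t S.top) * ((P : ℝ) ^ (m + 1)) ^ n := by linarith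
    exact le_of_mul_le_mul_right this hpos
  linarith

end Sys

/-- the abstract main theorem, in the form of the statement file -/
theorem sMain : SMain := by
  intro m C X₀ hm hC S
  obtain ⟨c, hc, h⟩ := S.main hm hC
  exact ⟨c, hc, h⟩

end Pool.Agent.Helper21.LR
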