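import Pool.Agent.Helper21.LR.Prep
import Pool.Agent.Helper21.LR.Main5

/-!
MP_6358c9_nt: the concrete descent system and the final theorem.
-/

open MvPolynomial

namespace Pool.Agent.Helper21.LR

/-- the type of rational varieties -/
structure VarT (m : ℕ) where
  r : ℕ
  ξ : Fin m → ℂ
  F : MvPolynomial (Fin (r+1) × Fin (m+1)) ℤ
  h : IsVar r ξ F

theorem exp_neg_mono {a b : ℝ} (h : b ≤ a) : Real.exp (-a) ≤ Real.exp (-b) :=
  Real.exp_le_exp.2 (neg_le_neg h)

/-- the concrete system -/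
theorem exists_sys (hz : SSz) (hmono : SMono) (heq : SEq) (htop : STop) (hcnt : SCnt)
    (hcount : SCount) (hupper : SUpper) (hinj : SInj) (hdir : SDir) (hbez1 : SBez1)
    (hbez2 : SBez2) (hclose : SClose) (havg : SAvg) (hliou : SLiou) (m : ℕ) (θ : Fin m → ℂ) :
    ∃ (C : ℝ) (X₀ : ℕ), 1 ≤ C ∧ ∃ S : Sys m C X₀, ∃ φ : S.V → VarT m,
      (∀ Z b, S.near Z b → ∃ p, OnV (φ Z).ξ p ∧ ‖p - θ‖ ≤ Real.exp (-b)) ∧
      (∀ Z W, S.sub Z W → OnV (φ W).ξ (φ Z).ξ) ∧
      (∀ W, S.dim W = (φ W).r) ∧ (∀ W, S.t W = sz (φ W).F) := by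
  obtain ⟨c, hc0, X₀, hcount⟩ := hcount m
  obtain ⟨C1, hC1, hupper'⟩ := hupper m
  obtain ⟨C2, hC2, hdir⟩ := hdir m θ
  obtain ⟨C3, hC3, hbez1⟩ := hbez1 m
  obtain ⟨C4, hC4, hbez2⟩ := hbez2 m θ
  obtain ⟨C5, hC5, hclose⟩ := hclose m θ
  obtain ⟨C6, hC6, havg⟩ := havg m θ
  obtain ⟨C7, hC7, hliou⟩ := hliou m θ
  obtain ⟨ξt, Ft, ht, hton⟩ := htop m
  set C : ℝ := 1 / c + C1 + C2 + C3 + C4 + C5 + C6 + C7 with hC
  have hci : 0 < 1 / c := by positivity
  have hCC1 : C1 ≤ C := by rw [hC]; linarith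
  have hCC2 : C2 ≤ C := by rw [hC]; linarith
  have hCC3 : C3 ≤ C := by rw [hC]; linarith
  have hCC4 : C4 ≤ C := by rw [hC]; linarith
  have hCC5 : C5 ≤ C := by rw [hC]; linarith
  have hCC6 : C6 ≤ C := by rw [hC]; linarith
  have hCC7 : C7 ≤ C := by rw [hC]; linarith
  have hCc : 1 / c ≤ C := by rw [hC]; linarith
  have hC1' : 1 ≤ C := by linarith
  refine ⟨C, X₀, hC1', ?_⟩
  let S : Sys m C X₀ :=
    { V := VarT m
      Fn := MvPolynomial (Fin m) ℤ × MvPolynomial (Fin m) ℂ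
      sub := fun W Y => OnV Y.ξ W.ξ
      sub_refl := fun W => onV_refl W.ξ
      sub_trans := fun W Y Z h1 h2 => onV_trans h2 h1
      dim := fun W => W.r
      dim_le := fun W => (hz m W.r W.ξ W.F W.h).1
      dim_mono := fun W Y h => hmono m Y.r W.r Y.ξ W.ξ Y.F W.F Y.h W.h h
      eq_of_dim := fun W Y h hd => heq m Y.r W.r Y.ξ W.ξ Y.F W.F Y.h W.h h hd
      t := fun W => sz W.F
      one_le_t := fun W => (hz m W.r W.ξ W.F W.h).2.2
      val := fun W B => Val θ W.F B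
      val_anti := fun W B B' hB h u hu => (h u hu).trans (exp_neg_mono hB)
      lev := fun W N f => Rep W.ξ N f.1 f.2 ∧ len f.2 ≤ Real.exp N
      lev_mono := fun W N N' f hN h => ⟨⟨h.1.1.trans hN, h.1.2.1.trans hN, h.1.2.2⟩,
        h.2.trans (Real.exp_le_exp.2 (by exact_mod_cast hN))⟩
      lev_sub := fun W Y N f hs h => ⟨⟨h.1.1, h.1.2.1, fun p hp => h.1.2.2 p (onV_trans hs hp)⟩, h.2⟩
      van := fun W f => aeval W.ξ f.1 = 0
      van_sub := fun W Y f hs h => hs _ h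
      sm := fun f b => ‖eval θ f.2‖ ≤ Real.exp (-b)
      sm_anti := fun f b b' hb h => h.trans (exp_neg_mono hb)
      near := fun W b => ∃ p, OnV W.ξ p ∧ ‖p - θ‖ ≤ Real.exp (-b)
      near_anti := fun W b b' hb h => by
        obtain ⟨p, h1, h2⟩ := h
        exact ⟨p, h1, h2.trans (exp_neg_mono hb)⟩
      near_sub := fun W Y b hs h => by
        obtain ⟨p, h1, h2⟩ := h
        exact ⟨p, onV_trans hs h1, h2⟩
      far := fun W f => ∀ p, OnV W.ξ p → ‖eval θ f.2‖ ≤ ‖p - θ‖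
      dich := fun W f b h => by
        by_cases hn : ∃ p, OnV W.ξ p ∧ ‖p - θ‖ ≤ Real.exp (-b)
        · exact Or.inl hn
        · right
          intro p hp
          push Not at hn
          exact h.trans (hn p hp).le
      cnt := fun W X => cnt W.ξ X
      cnt_mono := fun W X Y h1 h2 => (hcnt m W.r W.ξ W.F W.h).1 X Y h1 h2
      one_le_cnt := fun W X h1 => (hcnt m W.r W.ξ W.F W.h).2 X h1
      top := ⟨m, ξt, Ft, ht⟩
      dim_top := rfl
      sub_top := fun W => hton W.ξ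
      val_top := fun B => chow_val ht (hton θ) B
      growth := fun W X K h1 h2 => by
        have h3 := hcount W.r W.ξ W.F W.h X K h1 h2
        have h4 : (K : ℝ) ^ (W.r + 1) * cnt W.ξ X ≤ 1 / c * cnt W.ξ (K * X) := by
          rw [one_div_mul_eq_div, le_div_iff₀ hc0]
          linarith
        refine h4.trans ?_
        by_cases hX : 1 ≤ X
        · have h5 := (hcnt m W.r W.ξ W.F W.h).2 (K * X) (by nlinarith)
          have h6 : 0 ≤ cnt W.ξ (K * X) := by linarith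
          gcongr
        · have hX0 : X = 0 := by omega
          have h7 : 0 ≤ cnt W.ξ (K * X) := by
            unfold cnt
            exact Real.log_natCast_nonneg _
          gcongr
      upper := fun W X h1 => by
        have h2 := (hupper' W.r W.ξ W.F W.h X h1).2
        have h3 := (hz m W.r W.ξ W.F W.h).2.2
        refine h2.trans ?_
        gcongr
      inj := fun W Y X h1 hs h => hinj m Y.r W.r Y.ξ W.ξ Y.F W.F Y.h W.h hs X h1
        (fun Q G h2 h3 h4 => h (Q, G) ⟨h2, h3⟩ h4)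
      dir := fun W X h1 => by
        obtain ⟨Q, G, h2, h3, h4, h5⟩ := hdir W.r W.ξ W.F W.h X h1
        refine ⟨(Q, G), ⟨h2, h3⟩, h4, h5.trans (exp_neg_mono ?_)⟩
        have : C2 * (X : ℝ) ≤ C * X := by gcongr
        linarith
      bez1 := fun Y W N f h1 h2 h3 h4 h5 h6 => by
        obtain ⟨r, ξ, F, hY⟩ := Y
        obtain ⟨r', rfl⟩ : ∃ r', r = r' + 1 := ⟨r - 1, by simp at h2; omega⟩
        obtain ⟨η', F', g1, g2, g3, g4⟩ := hbez1 r' ξ F hY N f.1 f.2 h1 h4.1 h4.2 h5 W.ξ h3 h6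
        refine ⟨⟨r', η', F', g1⟩, g2, g3, rfl, g4.trans ?_⟩
        have h3 := (hz m _ ξ F hY).2.2
        simp only
        gcongr
      bez2 := fun Y N f B h1 h2 h3 h4 h5 h6 h7 => by
        obtain ⟨r, ξ, F, hY⟩ := Y
        obtain ⟨r', rfl⟩ : ∃ r', r = r' + 1 := ⟨r - 1, by simp at h2; omega⟩
        have hsz := (hz m _ ξ F hY).2.2
        simp only at h5
        have hN : (1 : ℝ) ≤ N := by exact_mod_cast h1
        have e1 : C4 * N * sz F ≤ C * N * sz F := by gcongr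
        obtain ⟨η', F', g1, g2, g3, g4⟩ := hbez2 r' ξ F hY N f.1 f.2 h1 h3.1 h3.2 h4 B
          (e1.trans h5) h6 h7
        refine ⟨⟨r', η', F', g1⟩, g2, rfl, g3.trans e1, fun u hu =>
          (g4 u hu).trans (exp_neg_mono ?_)⟩
        have hsz' := (hz m _ η' F' g1).2.2
        have hpos : 0 < C4 * N * sz F := by positivity
        have hB : 0 ≤ B := by
          have : 0 ≤ C * N * sz F := by positivity
          linarith
        gcongr
      close := fun W b h => by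
        obtain ⟨p, h1, h2⟩ := h
        have h3 := hclose W.r W.ξ W.F W.h p b h1 h2
        have hsz := (hz m _ W.ξ W.F W.h).2.2
        intro u hu
        refine (h3 u hu).trans (exp_neg_mono ?_)
        have : C5 * sz W.F ≤ C * sz W.F := by gcongr
        linarith
      avg := fun Z B hd hB h => by
        obtain ⟨r, ξ, F, hY⟩ := Z
        simp only at hd
        subst hd
        obtain ⟨p, h1, h2⟩ := havg ξ F hY B hB h
        refine ⟨p, h1, h2.trans (exp_neg_mono ?_)⟩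
        simp only
        linarith
      liou := fun Z N f B hd h1 h2 h3 h4 h5 => by
        obtain ⟨r, ξ, F, hY⟩ := Z
        simp only at hd
        subst hd
        have h6 := hliou ξ F hY N f.1 f.2 h1 h2.1 h2.2 h3 B h4 h5
        have hsz := (hz m _ ξ F hY).2.2
        refine h6.trans ?_
        simp only
        gcongr }
  refine ⟨S, id, ?_, ?_, ?_, ?_⟩
  · intro Z b h; exact h
  · intro Z W h; exact h
  · intro W; rfl
  · intro W; rfl

/-- the final statement from the abstract theorem -/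
theorem final_of (hz : SSz) (hmono : SMono) (heq : SEq) (htop : STop) (hcnt : SCnt)
    (hcount : SCount) (hupper : SUpper) (hinj : SInj) (hdir : SDir) (hbez1 : SBez1)
    (hbez2 : SBez2) (hclose : SClose) (havg : SAvg) (hliou : SLiou) (hmeet1 : SMeet1)
    (hmeet2 : SMeet2) (hpure : SPure) (hdefq : SDefQ) : SFinal := by
  intro m hm θ
  obtain ⟨C, X₀, hC, S, φ, h1, h2, h3, h4⟩ := exists_sys hz hmono heq htop hcnt hcount hupper hinj
    hdir hbez1 hbez2 hclose havg hliou m θ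
  obtain ⟨c, hc0, hmain⟩ := S.main hm hC
  set L : ℝ := max 1 (1 / c) with hL
  have hL1 : 1 ≤ L := le_max_left _ _
  have hLc : 1 ≤ L * c := by
    have : 1 / c ≤ L := le_max_right _ _
    rwa [div_le_iff₀ hc0] at this
  refine ⟨1 / (2 ^ (m + 1) * L), by positivity, fun k hk N => ?_⟩
  obtain ⟨Z, b, hb, hnear, hflag⟩ := hmain (max 1 ((N : ℝ) ^ (m + 1)))
  obtain ⟨W, w1, w2, w3⟩ := hflag k hk
  obtain ⟨p, hp1, hp2⟩ := h1 Z b hnear
  have hpW := onV_trans (h2 Z W w1) hp1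
  have hb1 : 1 ≤ b := le_trans (le_max_left _ _) hb
  have hbN : (N : ℝ) ^ (m + 1) ≤ b := le_trans (le_max_right _ _) hb
  rw [h3] at w2
  rw [h4] at w3
  generalize φ W = V at hpW w2 w3
  obtain ⟨r, ξ, F, hV⟩ := V
  simp only at hpW w2 w3
  subst w2
  have hsz : 1 ≤ sz F := (hz m r ξ F hV).2.2
  -- the choice of T
  set y : ℝ := (L * b) ^ ((1 : ℝ) / ((m + 1 : ℕ) : ℝ)) with hy
  have hLb : 1 ≤ L * b := by nlinarith
  have hy0 : 0 ≤ y := by rw [hy]; positivity
  have hypow : y ^ (m + 1) = L * b := by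
    rw [hy, ← Real.rpow_natCast, ← Real.rpow_mul (by linarith), one_div_mul_cancel, Real.rpow_one]
    positivity
  have hy1 : 1 ≤ y := by
    by_contra hlt
    push Not at hlt
    have : y ^ (m + 1) < 1 := pow_lt_one₀ hy0 hlt (by omega)
    rw [hypow] at this
    linarith
  have hyN : (N : ℝ) ≤ y := by
    by_contra hlt
    push Not at hlt
    have h5 : y ^ (m + 1) < (N : ℝ) ^ (m + 1) := pow_lt_pow_left₀ hlt hy0 (by omega)
    rw [hypow] at h5
    have h6 : b ≤ L * b := by nlinarith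
    linarith
  have hyT : y ≤ (⌈y⌉₊ : ℝ) := Nat.le_ceil y
  have hT2 : (⌈y⌉₊ : ℝ) ≤ 2 * y := by
    have := Nat.ceil_lt_add_one hy0
    linarith
  refine ⟨⌈y⌉₊, ?_, {x | OnV ξ x}, p, F, hpW, hdefq m ξ, hpure m r ξ F hV,
    chowForm_of_var hmeet1 hmeet2 hV, ?_, ?_⟩
  · exact_mod_cast hyN.trans hyT
  · change sz F ≤ _
    have h5 : sz F ^ (m + 1) ≤ ((⌈y⌉₊ : ℝ) ^ (m - r)) ^ (m + 1) := by
      have hLr : L ≤ L ^ (m - r) := by
        calc L = L ^ 1 := (pow_one L).symm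
          _ ≤ L ^ (m - r) := pow_le_pow_right₀ hL1 (by omega)
      calc sz F ^ (m + 1) = 1 * sz F ^ (m + 1) := by ring
        _ ≤ (L * c) * sz F ^ (m + 1) := by gcongr
        _ = L * (c * sz F ^ (m + 1)) := by ring
        _ ≤ L * b ^ (m - r) := by gcongr
        _ ≤ L ^ (m - r) * b ^ (m - r) := by gcongr
        _ = (y ^ (m + 1)) ^ (m - r) := by rw [hypow, mul_pow]
        _ = (y ^ (m - r)) ^ (m + 1) := by rw [← pow_mul, ← pow_mul, mul_comm]
        _ ≤ ((⌈y⌉₊ : ℝ) ^ (m - r)) ^ (m + 1) := by gcongr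
    exact (pow_le_pow_iff_left₀ (by linarith) (by positivity) (by omega)).1 h5
  · rw [← norm_neg, neg_sub]
    refine hp2.trans (Real.exp_le_exp.2 ?_)
    have h5 : (⌈y⌉₊ : ℝ) ^ (m + 1) ≤ 2 ^ (m + 1) * (L * b) := by
      calc (⌈y⌉₊ : ℝ) ^ (m + 1) ≤ (2 * y) ^ (m + 1) := by gcongr
        _ = 2 ^ (m + 1) * (L * b) := by rw [mul_pow, hypow]
    have h6 : 1 / (2 ^ (m + 1) * L) * (⌈y⌉₊ : ℝ) ^ (m + 1) ≤ b := by
      rw [one_div_mul_eq_div, div_le_iff₀ (by positivity)]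
      calc (⌈y⌉₊ : ℝ) ^ (m + 1) ≤ 2 ^ (m + 1) * (L * b) := h5
        _ = b * (2 ^ (m + 1) * L) := by ring
    linarith

end Pool.Agent.Helper21.LR
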