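import Mathlib

/-!
MP_6358c9_nt (Laurent, Roy): basic definitions of the internal theory.
A rational variety is given by a generic complex point `ξ : Fin m → ℂ`.
-/

open MvPolynomial

namespace Pool.Agent.Helper21.LR

/-- `p` lies on the smallest algebraic set defined over `ℚ` which contains `ξ`. -/
def OnV {m : ℕ} (ξ p : Fin m → ℂ) : Prop :=
  ∀ Q : MvPolynomial (Fin m) ℤ, aeval ξ Q = 0 → aeval p Q = 0

/-- transcendence degree (over `ℚ`) of a set of complex numbers, as a rank in the algebraic matroid -/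
noncomputable def rk (S : Set ℂ) : ℕ∞ := (AlgebraicIndependent.matroid ℤ ℂ).eRk S

/-- transcendence degree of `ℚ(ξ)` -/
noncomputable def trd {m : ℕ} (ξ : Fin m → ℂ) : ℕ∞ := rk (Set.range ξ)

/-- coefficient vectors of the `r` affine hyperplanes `-∑ u_ij ξ_j + ∑ u_ij x_j` through `ξ` -/
def thr {m r : ℕ} (ξ : Fin m → ℂ) (u : Fin r × Fin m → ℂ) : Fin r × Fin (m+1) → ℂ :=
  fun ij => Fin.cases (motive := fun _ => ℂ) (-∑ j, u (ij.1, j) * ξ j) (fun j => u (ij.1, j)) ij.2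

/-- the same with polynomial coefficients: substitution `u_i0 = -∑ u_ij ξ_j` -/
noncomputable def genSub {m : ℕ} (r : ℕ) (ξ : Fin m → ℂ) :
    MvPolynomial (Fin r × Fin (m+1)) ℤ →ₐ[ℤ] MvPolynomial (Fin r × Fin m) ℂ :=
  aeval (fun ij => Fin.cases (motive := fun _ => MvPolynomial (Fin r × Fin m) ℂ)
    (-∑ j, C (ξ j) * X (ij.1, j)) (fun j => X (ij.1, j)) ij.2)

/-- put one linear form `w` in front of `r` linear forms `U` -/
def consU {m r : ℕ} (w : Fin (m+1) → ℂ) (U : Fin r × Fin (m+1) → ℂ) : Fin (r+1) × Fin (m+1) → ℂ :=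
  fun ij => Fin.cases (motive := fun _ => ℂ) (w ij.2) (fun i => U (i, ij.2)) ij.1

/-- `F` is a Chow form of the rational variety with generic point `ξ`, in `r+1` linear forms -/
def IsChow {m : ℕ} (r : ℕ) (ξ : Fin m → ℂ) (F : MvPolynomial (Fin (r+1) × Fin (m+1)) ℤ) : Prop :=
  F ≠ 0 ∧ ∀ G : MvPolynomial (Fin (r+1) × Fin (m+1)) ℤ,
    (∀ u : Fin (r+1) × Fin m → ℂ, aeval (thr ξ u) G = 0) ↔ F ∣ G

/-- rational variety of dimension `r` with generic point `ξ` and Chow form `F` -/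
structure IsVar {m : ℕ} (r : ℕ) (ξ : Fin m → ℂ)
    (F : MvPolynomial (Fin (r+1) × Fin (m+1)) ℤ) : Prop where
  chow : IsChow r ξ F
  dim : trd ξ = r

/-- maximal absolute value of a coefficient -/
def ht {ι : Type*} (F : MvPolynomial ι ℤ) : ℕ := F.support.sup fun α => (F.coeff α).natAbs

/-- size: total degree plus logarithm of the height -/
noncomputable def sz {ι : Type*} (F : MvPolynomial ι ℤ) : ℝ := F.totalDegree + Real.log (ht F)

/-- sum of the absolute values of the coefficients -/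
noncomputable def len {ι : Type*} (G : MvPolynomial ι ℂ) : ℝ := ∑ α ∈ G.support, ‖G.coeff α‖

/-- `|F_θ| ≤ exp (-B)` on the unit polydisc: the variety with Chow form `F` is `B`-close to `θ` -/
def Val {m r : ℕ} (θ : Fin m → ℂ) (F : MvPolynomial (Fin r × Fin (m+1)) ℤ) (B : ℝ) : Prop :=
  ∀ u : Fin r × Fin m → ℂ, (∀ ij, ‖u ij‖ ≤ 1) → ‖aeval (thr θ u) F‖ ≤ Real.exp (-B)

/-- a function on the variety of `ξ`: the integer polynomial `Q` and the complex polynomial `G`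
have degree at most `N` and agree on the variety -/
def Rep {m : ℕ} (ξ : Fin m → ℂ) (N : ℕ) (Q : MvPolynomial (Fin m) ℤ) (G : MvPolynomial (Fin m) ℂ) :
    Prop :=
  Q.totalDegree ≤ N ∧ G.totalDegree ≤ N ∧ ∀ p : Fin m → ℂ, OnV ξ p → aeval p Q = eval p G

/-- logarithm of the number of functions of level `X` on the variety of `ξ` -/
noncomputable def cnt {m : ℕ} (ξ : Fin m → ℂ) (X : ℕ) : ℝ :=
  Real.log (Set.ncard {g : ℂ | ∃ Q G, Rep ξ X Q G ∧ len G ≤ Real.exp X ∧ g = aeval ξ Q})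

/-- splitting of the Chow form, in a shape which specialises -/
structure Split {m : ℕ} (r : ℕ) (ξ : Fin m → ℂ)
    (F : MvPolynomial (Fin (r+1) × Fin (m+1)) ℤ) where
  δ : ℕ
  a : MvPolynomial (Fin r × Fin m) ℤ
  g : MvPolynomial (Fin m) ℤ → ℕ → MvPolynomial (Fin r × Fin (m+1)) ℤ
  δ_pos : 0 < δ
  δ_eq : δ = F.degreeOf (0, 0)
  a_ne : a ≠ 0
  pts : ∀ U : Fin r × Fin (m+1) → ℂ, aeval (fun ij : Fin r × Fin m => U (ij.1, ij.2.succ)) a ≠ 0 →
    ∃ p : Fin δ → Fin m → ℂ, (∀ σ, OnV ξ (p σ)) ∧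
      (∀ σ i, U (i, 0) + ∑ j : Fin m, U (i, j.succ) * p σ j = 0) ∧
      (∀ w : Fin (m+1) → ℂ, aeval (consU w U) F =
        aeval (fun ij : Fin r × Fin m => U (ij.1, ij.2.succ)) a *
          ∏ σ, (w 0 + ∑ j : Fin m, w j.succ * p σ j)) ∧
      (∀ (Q : MvPolynomial (Fin m) ℤ) (d : ℕ), Q.totalDegree ≤ d → aeval U (g Q d) =
        (aeval (fun ij : Fin r × Fin m => U (ij.1, ij.2.succ)) a) ^ d * ∏ σ, aeval (p σ) Q)
  g_ne : ∀ (Q : MvPolynomial (Fin m) ℤ) (d : ℕ), Q.totalDegree ≤ d → aeval ξ Q ≠ 0 → g Q d ≠ 0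

end Pool.Agent.Helper21.LR
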