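import Pool.Agent.Helper21.LR.Defs

/-!
MP_6358c9_nt (Laurent, Roy): exact statements of the modules, as propositions.
-/

open MvPolynomial

namespace Pool.Agent.Helper21.LR

/-- logarithmic Mahler measure in several variables -/
def SMahler : Prop := ∀ (ι : Type) [Fintype ι], ∃ μ : MvPolynomial ι ℂ → ℝ,
  (∀ P Q : MvPolynomial ι ℂ, P ≠ 0 → Q ≠ 0 → μ (P * Q) = μ P + μ Q) ∧
  (∀ P : MvPolynomial ι ℂ, P ≠ 0 → ∀ B : ℝ, 0 < B →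
    (∀ z : ι → ℂ, (∀ i, ‖z i‖ ≤ 1) → ‖eval z P‖ ≤ B) → μ P ≤ Real.log B) ∧
  (∀ P : MvPolynomial ι ℂ, ∀ α ∈ P.support,
    Real.log ‖P.coeff α‖ ≤ μ P + Fintype.card ι * P.totalDegree * Real.log 2) ∧
  (∀ P : MvPolynomial ι ℂ, P ≠ 0 → ∃ α ∈ P.support, Real.log ‖P.coeff α‖ ≤ μ P) ∧
  (∀ c : ℂ, c ≠ 0 → μ (C c) = Real.log ‖c‖)

/-- products of linear forms have large supremum on the polydisc -/
def SProdLin : Prop := ∀ (n δ : ℕ) (q : Fin δ → Fin n → ℂ) (a : ℂ) (B : ℝ),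
  (∀ u : Fin n → ℂ, (∀ j, ‖u j‖ ≤ 1) → ‖a * ∏ σ, ∑ j, u j * q σ j‖ ≤ B) →
  ‖a‖ * ∏ σ, ‖q σ‖ ≤ 2 ^ (n * δ) * B

/-- generic zero of an irreducible nonconstant integer polynomial -/
def SGenZero : Prop := ∀ (ι : Type) [Fintype ι] (P : MvPolynomial ι ℤ), Irreducible P →
  (∀ c : ℤ, P ≠ C c) → ∃ z : ι → ℂ, ∀ G : MvPolynomial ι ℤ, aeval z G = 0 ↔ P ∣ G

/-- the top variety -/
def STop : Prop := ∀ m : ℕ, ∃ (ξ : Fin m → ℂ) (F : MvPolynomial (Fin (m+1) × Fin (m+1)) ℤ),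
  IsVar m ξ F ∧ ∀ p : Fin m → ℂ, OnV ξ p

/-- splitting over a generic point of the first `r` hyperplanes -/
structure GenSplit {m : ℕ} (r : ℕ) (ξ : Fin m → ℂ)
    (F : MvPolynomial (Fin (r+1) × Fin (m+1)) ℤ) where
  U : Fin r × Fin (m+1) → ℂ
  δ : ℕ
  p : Fin δ → Fin m → ℂ
  a : MvPolynomial (Fin r × Fin (m+1)) ℤ
  inj : ∀ G : MvPolynomial (Fin r × Fin (m+1)) ℤ, aeval U G = 0 → G = 0
  δ_pos : 0 < δ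
  conj : ∀ σ, ∀ Q : MvPolynomial (Fin m) ℤ, aeval (p σ) Q = 0 ↔ aeval ξ Q = 0
  inc : ∀ σ i, U (i, 0) + ∑ j : Fin m, U (i, j.succ) * p σ j = 0
  fac : ∀ w : Fin (m+1) → ℂ, aeval (consU w U) F =
    aeval U a * ∏ σ, (w 0 + ∑ j : Fin m, w j.succ * p σ j)
  sym : ∀ Q : MvPolynomial (Fin m) ℤ, ∃ num den : MvPolynomial (Fin r × Fin (m+1)) ℤ,
    den ≠ 0 ∧ aeval U den * ∏ σ, aeval (p σ) Q = aeval U num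

def SGenSplit : Prop := ∀ (m r : ℕ) (ξ : Fin m → ℂ) (F : MvPolynomial (Fin (r+1) × Fin (m+1)) ℤ),
  IsVar r ξ F → Nonempty (GenSplit r ξ F)

/-- integrality -/
def SInteg : Prop := ∀ (R Ω : Type) [CommRing R] [IsDomain R] [IsIntegrallyClosed R] [Field Ω]
  (ψ : R →+* Ω), Function.Injective ψ → ∀ (m δ : ℕ) (a : R) (p : Fin δ → Fin m → Ω)
  (F : MvPolynomial (Fin (m+1)) R),
  MvPolynomial.map ψ F = C (ψ a) * ∏ σ, (X 0 + ∑ j : Fin m, C (p σ j) * X j.succ) →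
  ∀ (Q : MvPolynomial (Fin m) R) (d : ℕ), Q.totalDegree ≤ d → ∀ num den : R, den ≠ 0 →
  ψ den * ∏ σ, eval₂ ψ (p σ) Q = ψ num →
  ∃ g : R, ψ g = ψ a ^ d * ∏ σ, eval₂ ψ (p σ) Q

/-- extension of a specialisation -/
def SSpecial : Prop := ∀ (R Ω Ω' : Type) [CommRing R] [IsDomain R] [Field Ω] [Field Ω']
  [IsAlgClosed Ω'] (ψ : R →+* Ω), Function.Injective ψ → ∀ (a : R) (n : ℕ) (z : Fin n → Ω),
  (∀ i, ∃ P : Polynomial R, 0 < P.natDegree ∧ P.leadingCoeff = a ∧ P.eval₂ ψ (z i) = 0) →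
  ∀ φ : R →+* Ω', φ a ≠ 0 → ∃ z' : Fin n → Ω', ∀ G : MvPolynomial (Fin n) R,
    eval₂ ψ z G = 0 → eval₂ φ z' G = 0

/-- invariance of the Chow form -/
def SInv : Prop := ∀ (m r : ℕ) (ξ : Fin m → ℂ) (F : MvPolynomial (Fin (r+1) × Fin (m+1)) ℤ),
  IsVar r ξ F → ∀ (c : Fin r → ℂ) (w : Fin (m+1) → ℂ) (U : Fin r × Fin (m+1) → ℂ),
  aeval (consU w (fun ij => U ij + c ij.1 * w ij.2)) F = aeval (consU w U) F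

def SSplit : Prop := ∀ (m r : ℕ) (ξ : Fin m → ℂ) (F : MvPolynomial (Fin (r+1) × Fin (m+1)) ℤ),
  IsVar r ξ F → Nonempty (Split r ξ F)

/-- irreducible factors of `g` -/
def SFactor : Prop := ∀ (m r : ℕ) (ξ : Fin m → ℂ) (F : MvPolynomial (Fin (r+1+1) × Fin (m+1)) ℤ),
  IsVar (r+1) ξ F → ∀ (S : Split (r+1) ξ F) (Q : MvPolynomial (Fin m) ℤ) (d : ℕ),
  Q.totalDegree ≤ d → aeval ξ Q ≠ 0 → ∀ P : MvPolynomial (Fin (r+1) × Fin (m+1)) ℤ,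
  Irreducible P → P ∣ S.g Q d →
  (∃ P' : MvPolynomial (Fin (r+1) × Fin m) ℤ, P = rename (fun ij => (ij.1, ij.2.succ)) P') ∨
  ∃ η : Fin m → ℂ, IsVar r η P ∧ OnV ξ η ∧ aeval η Q = 0

/-- every subvariety of `V ∩ {Q = 0}` is contained in one of the components of `g` -/
def SCover : Prop := ∀ (m r : ℕ) (ξ : Fin m → ℂ) (F : MvPolynomial (Fin (r+1+1) × Fin (m+1)) ℤ),
  IsVar (r+1) ξ F → ∀ (S : Split (r+1) ξ F) (Q : MvPolynomial (Fin m) ℤ) (d : ℕ),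
  Q.totalDegree ≤ d → aeval ξ Q ≠ 0 → ∀ η : Fin m → ℂ, OnV ξ η → aeval η Q = 0 →
  ∃ (P : MvPolynomial (Fin (r+1) × Fin (m+1)) ℤ) (η' : Fin m → ℂ), Irreducible P ∧ P ∣ S.g Q d ∧
    IsVar r η' P ∧ OnV ξ η' ∧ aeval η' Q = 0 ∧ OnV η' η

/-- Noether normalisation with degree control -/
def SNoether : Prop := ∀ (m r : ℕ) (ξ : Fin m → ℂ) (F : MvPolynomial (Fin (r+1) × Fin (m+1)) ℤ),
  IsVar r ξ F → ∀ δ : ℕ, δ = F.degreeOf (0, 0) → 0 < δ ∧ ∃ (w : Fin r → Fin m → ℤ),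
  AlgebraicIndependent ℚ (fun i : Fin r => ∑ j, (w i j : ℂ) * ξ j) ∧
  ∀ v : Fin m → ℤ, ∃ c : Fin δ → MvPolynomial (Fin r) ℚ, (∀ i, (c i).totalDegree ≤ (i : ℕ) + 1) ∧
    (∑ j, (v j : ℂ) * ξ j) ^ δ + ∑ i : Fin δ,
      aeval (fun i : Fin r => ∑ j, (w i j : ℂ) * ξ j) (c i) *
        (∑ j, (v j : ℂ) * ξ j) ^ (δ - 1 - (i : ℕ)) = 0

/-- rational span of the polynomial expressions of degree `≤ X` in `ξ` -/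
noncomputable def polySpan {m : ℕ} (ξ : Fin m → ℂ) (X : ℕ) : Submodule ℚ ℂ :=
  Submodule.span ℚ {z | ∃ Q : MvPolynomial (Fin m) ℤ, Q.totalDegree ≤ X ∧ z = aeval ξ Q}

/-- Hilbert function bound -/
def SHilb : Prop := ∀ (m r : ℕ) (ξ : Fin m → ℂ) (F : MvPolynomial (Fin (r+1) × Fin (m+1)) ℤ),
  IsVar r ξ F → ∀ X : ℕ,
  (Module.finrank ℚ (polySpan ξ X) : ℝ) ≤ F.degreeOf (0, 0) * ((X : ℝ) + 1) ^ r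

/-- geometric growth lemma -/
def SGrow : Prop := ∀ (m : ℕ), ∃ c : ℝ, 0 < c ∧ ∀ (r : ℕ) (ξ : Fin m → ℂ)
  (F : MvPolynomial (Fin (r+1) × Fin (m+1)) ℤ), IsVar r ξ F → ∀ X K : ℕ, 1 ≤ X → 1 ≤ K →
  ∀ A : Submodule ℚ ℂ, A ≤ polySpan ξ X →
  c * (K : ℝ) ^ r * Module.finrank ℚ A ≤ Module.finrank ℚ ↥(A * polySpan ξ (K * X))

/-- size estimate -/
def SSize : Prop := ∀ m : ℕ, ∃ C : ℝ, 1 ≤ C ∧ ∀ (r : ℕ) (ξ : Fin m → ℂ)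
  (F : MvPolynomial (Fin (r+1) × Fin (m+1)) ℤ), IsVar r ξ F → ∀ (S : Split r ξ F)
  (N : ℕ) (Q : MvPolynomial (Fin m) ℤ) (G : MvPolynomial (Fin m) ℂ), 1 ≤ N → Rep ξ N Q G →
  ((S.g Q N).totalDegree : ℝ) ≤ C * N * sz F ∧
  ∀ U : Fin r × Fin (m+1) → ℂ, (∀ ij, ‖U ij‖ ≤ 1) →
    ‖aeval U (S.g Q N)‖ ≤ (len G) ^ S.δ * Real.exp (C * N * sz F)

/-- closeness estimate -/
def SVal : Prop := ∀ (m : ℕ) (θ : Fin m → ℂ), ∃ C : ℝ, 1 ≤ C ∧ ∀ (r : ℕ) (ξ : Fin m → ℂ)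
  (F : MvPolynomial (Fin (r+1) × Fin (m+1)) ℤ), IsVar r ξ F → ∀ (S : Split r ξ F)
  (N : ℕ) (Q : MvPolynomial (Fin m) ℤ) (G : MvPolynomial (Fin m) ℂ), 1 ≤ N → Rep ξ N Q G →
  len G ≤ Real.exp N → ∀ B : ℝ, Val θ F B →
  (‖eval θ G‖ ≤ Real.exp (-B) ∨ ∀ p : Fin m → ℂ, OnV ξ p → ‖eval θ G‖ ≤ ‖p - θ‖) →
  Val θ (S.g Q N) (B - C * N * sz F)

/-- a variety with a close point is close -/
def SClose : Prop := ∀ (m : ℕ) (θ : Fin m → ℂ), ∃ C : ℝ, 1 ≤ C ∧ ∀ (r : ℕ) (ξ : Fin m → ℂ)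
  (F : MvPolynomial (Fin (r+1) × Fin (m+1)) ℤ), IsVar r ξ F → ∀ (p : Fin m → ℂ) (ℓ : ℝ),
  OnV ξ p → ‖p - θ‖ ≤ Real.exp (-ℓ) → Val θ F (ℓ - C * sz F)

/-- the average closeness in dimension zero -/
def SAvg : Prop := ∀ (m : ℕ) (θ : Fin m → ℂ), ∃ C : ℝ, 1 ≤ C ∧ ∀ (ξ : Fin m → ℂ)
  (F : MvPolynomial (Fin (0+1) × Fin (m+1)) ℤ), IsVar 0 ξ F → ∀ B : ℝ, 0 ≤ B → Val θ F B →
  ∃ p : Fin m → ℂ, OnV ξ p ∧ ‖p - θ‖ ≤ Real.exp (-(B / sz F - C))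

/-- Liouville -/
def SLiou : Prop := ∀ (m : ℕ) (θ : Fin m → ℂ), ∃ C : ℝ, 1 ≤ C ∧ ∀ (ξ : Fin m → ℂ)
  (F : MvPolynomial (Fin (0+1) × Fin (m+1)) ℤ), IsVar 0 ξ F →
  ∀ (N : ℕ) (Q : MvPolynomial (Fin m) ℤ) (G : MvPolynomial (Fin m) ℂ), 1 ≤ N → Rep ξ N Q G →
  len G ≤ Real.exp N → aeval ξ Q ≠ 0 → ∀ B : ℝ, Val θ F B →
  (∀ p : Fin m → ℂ, OnV ξ p → ‖eval θ G‖ ≤ ‖p - θ‖) → B ≤ C * N * sz F

/-- Bezout, sizes -/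
def SBez1 : Prop := ∀ m : ℕ, ∃ C : ℝ, 1 ≤ C ∧ ∀ (r : ℕ) (ξ : Fin m → ℂ)
  (F : MvPolynomial (Fin (r+1+1) × Fin (m+1)) ℤ), IsVar (r+1) ξ F →
  ∀ (N : ℕ) (Q : MvPolynomial (Fin m) ℤ) (G : MvPolynomial (Fin m) ℂ), 1 ≤ N → Rep ξ N Q G →
  len G ≤ Real.exp N → aeval ξ Q ≠ 0 → ∀ η : Fin m → ℂ, OnV ξ η → aeval η Q = 0 →
  ∃ (η' : Fin m → ℂ) (F' : MvPolynomial (Fin (r+1) × Fin (m+1)) ℤ), IsVar r η' F' ∧ OnV ξ η' ∧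
    OnV η' η ∧ sz F' ≤ C * N * sz F

/-- Bezout, closeness -/
def SBez2 : Prop := ∀ (m : ℕ) (θ : Fin m → ℂ), ∃ C : ℝ, 1 ≤ C ∧ ∀ (r : ℕ) (ξ : Fin m → ℂ)
  (F : MvPolynomial (Fin (r+1+1) × Fin (m+1)) ℤ), IsVar (r+1) ξ F →
  ∀ (N : ℕ) (Q : MvPolynomial (Fin m) ℤ) (G : MvPolynomial (Fin m) ℂ), 1 ≤ N → Rep ξ N Q G →
  len G ≤ Real.exp N → aeval ξ Q ≠ 0 → ∀ B : ℝ, C * N * sz F ≤ B → Val θ F B →
  (‖eval θ G‖ ≤ Real.exp (-B) ∨ ∀ p : Fin m → ℂ, OnV ξ p → ‖eval θ G‖ ≤ ‖p - θ‖) →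
  ∃ (η' : Fin m → ℂ) (F' : MvPolynomial (Fin (r+1) × Fin (m+1)) ℤ), IsVar r η' F' ∧ OnV ξ η' ∧
    sz F' ≤ C * N * sz F ∧ Val θ F' (B / (C * N * sz F) * sz F')

/-- sizes are at least one -/
def SSz : Prop := ∀ (m r : ℕ) (ξ : Fin m → ℂ) (F : MvPolynomial (Fin (r+1) × Fin (m+1)) ℤ),
  IsVar r ξ F → r ≤ m ∧ 1 ≤ F.totalDegree ∧ 1 ≤ sz F

/-- upper bound for the number of functions, and finiteness -/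
def SUpper : Prop := ∀ m : ℕ, ∃ C : ℝ, 1 ≤ C ∧ ∀ (r : ℕ) (ξ : Fin m → ℂ)
  (F : MvPolynomial (Fin (r+1) × Fin (m+1)) ℤ), IsVar r ξ F → ∀ X : ℕ, 1 ≤ X →
  Set.Finite {g : ℂ | ∃ Q G, Rep ξ X Q G ∧ len G ≤ Real.exp X ∧ g = aeval ξ Q} ∧
  cnt ξ X ≤ C * (X : ℝ) ^ (r+1) * sz F

/-- arithmetic growth -/
def SCount : Prop := ∀ m : ℕ, ∃ c : ℝ, 0 < c ∧ ∃ X₀ : ℕ, ∀ (r : ℕ) (ξ : Fin m → ℂ)
  (F : MvPolynomial (Fin (r+1) × Fin (m+1)) ℤ), IsVar r ξ F → ∀ X K : ℕ, X₀ ≤ X → 1 ≤ K →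
  c * (K : ℝ) ^ (r+1) * cnt ξ X ≤ cnt ξ (K * X)

/-- Dirichlet -/
def SDir : Prop := ∀ (m : ℕ) (θ : Fin m → ℂ), ∃ C : ℝ, 1 ≤ C ∧ ∀ (r : ℕ) (ξ : Fin m → ℂ)
  (F : MvPolynomial (Fin (r+1) × Fin (m+1)) ℤ), IsVar r ξ F → ∀ X : ℕ, 1 ≤ X →
  ∃ (Q : MvPolynomial (Fin m) ℤ) (G : MvPolynomial (Fin m) ℂ), Rep ξ (X+1) Q G ∧
    len G ≤ Real.exp ((X+1 : ℕ) : ℝ) ∧ aeval ξ Q ≠ 0 ∧
    ‖eval θ G‖ ≤ Real.exp (-(cnt ξ X / 2 - C * X))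

/-- restriction to a subvariety on which no function of level `X+1` vanishes -/
def SInj : Prop := ∀ (m r r' : ℕ) (ξ η : Fin m → ℂ)
  (F : MvPolynomial (Fin (r+1) × Fin (m+1)) ℤ) (F' : MvPolynomial (Fin (r'+1) × Fin (m+1)) ℤ),
  IsVar r ξ F → IsVar r' η F' → OnV ξ η → ∀ X : ℕ, 1 ≤ X →
  (∀ (Q : MvPolynomial (Fin m) ℤ) (G : MvPolynomial (Fin m) ℂ), Rep ξ (X+1) Q G →
    len G ≤ Real.exp ((X+1 : ℕ) : ℝ) → aeval ξ Q ≠ 0 → aeval η Q ≠ 0) → cnt ξ X ≤ cnt η X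

/-- monotonicity and positivity of the counting function -/
def SCnt : Prop := ∀ (m r : ℕ) (ξ : Fin m → ℂ) (F : MvPolynomial (Fin (r+1) × Fin (m+1)) ℤ),
  IsVar r ξ F → (∀ X Y : ℕ, 1 ≤ X → X ≤ Y → cnt ξ X ≤ cnt ξ Y) ∧ (∀ X : ℕ, 1 ≤ X → 1 ≤ cnt ξ X)

/-- an irreducible subvariety of the same dimension is everything -/
def SEq : Prop := ∀ (m r r' : ℕ) (ξ η : Fin m → ℂ)
  (F : MvPolynomial (Fin (r+1) × Fin (m+1)) ℤ) (F' : MvPolynomial (Fin (r'+1) × Fin (m+1)) ℤ),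
  IsVar r ξ F → IsVar r' η F' → OnV ξ η → r ≤ r' → OnV η ξ

/-- the dimension of a subvariety is at most the dimension -/
def SMono : Prop := ∀ (m r r' : ℕ) (ξ η : Fin m → ℂ)
  (F : MvPolynomial (Fin (r+1) × Fin (m+1)) ℤ) (F' : MvPolynomial (Fin (r'+1) × Fin (m+1)) ℤ),
  IsVar r ξ F → IsVar r' η F' → OnV ξ η → r' ≤ r

/-- abstract descent system: `V` varieties, `Fn` functions (pairs `(Q,G)`), `sub W Y` : `W ⊆ Y` -/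
structure Sys (m : ℕ) (C : ℝ) (X₀ : ℕ) where
  V : Type
  Fn : Type
  sub : V → V → Prop
  sub_refl : ∀ W, sub W W
  sub_trans : ∀ W Y Z, sub W Y → sub Y Z → sub W Z
  dim : V → ℕ
  dim_le : ∀ W, dim W ≤ m
  dim_mono : ∀ W Y, sub W Y → dim W ≤ dim Y
  eq_of_dim : ∀ W Y, sub W Y → dim Y ≤ dim W → sub Y W
  t : V → ℝ
  one_le_t : ∀ W, 1 ≤ t W
  val : V → ℝ → Prop
  val_anti : ∀ W B B', B' ≤ B → val W B → val W B'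
  lev : V → ℕ → Fn → Prop
  lev_mono : ∀ W N N' f, N ≤ N' → lev W N f → lev W N' f
  lev_sub : ∀ W Y N f, sub W Y → lev Y N f → lev W N f
  van : V → Fn → Prop
  van_sub : ∀ W Y f, sub W Y → van Y f → van W f
  sm : Fn → ℝ → Prop
  sm_anti : ∀ f b b', b' ≤ b → sm f b → sm f b'
  near : V → ℝ → Prop
  near_anti : ∀ W b b', b' ≤ b → near W b → near W b'
  near_sub : ∀ W Y b, sub W Y → near W b → near Y b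
  far : V → Fn → Prop
  dich : ∀ W f b, sm f b → near W b ∨ far W f
  cnt : V → ℕ → ℝ
  cnt_mono : ∀ W X Y, 1 ≤ X → X ≤ Y → cnt W X ≤ cnt W Y
  one_le_cnt : ∀ W X, 1 ≤ X → 1 ≤ cnt W X
  top : V
  dim_top : dim top = m
  sub_top : ∀ W, sub W top
  val_top : ∀ B, val top B
  growth : ∀ W (X K : ℕ), X₀ ≤ X → 1 ≤ K → (K : ℝ) ^ (dim W + 1) * cnt W X ≤ C * cnt W (K * X)
  upper : ∀ W (X : ℕ), 1 ≤ X → cnt W X ≤ C * (X : ℝ) ^ (dim W + 1) * t W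
  inj : ∀ W Y (X : ℕ), 1 ≤ X → sub W Y → (∀ f, lev Y (X+1) f → ¬ van Y f → ¬ van W f) →
    cnt Y X ≤ cnt W X
  dir : ∀ W (X : ℕ), 1 ≤ X → ∃ f, lev W (X+1) f ∧ ¬ van W f ∧ sm f (cnt W X / 2 - C * X)
  bez1 : ∀ Y W (N : ℕ) f, 1 ≤ N → 1 ≤ dim Y → sub W Y → lev Y N f → ¬ van Y f → van W f →
    ∃ Y', sub Y' Y ∧ sub W Y' ∧ dim Y' + 1 = dim Y ∧ t Y' ≤ C * N * t Y
  bez2 : ∀ Y (N : ℕ) f (B : ℝ), 1 ≤ N → 1 ≤ dim Y → lev Y N f → ¬ van Y f → C * N * t Y ≤ B →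
    val Y B → (sm f B ∨ far Y f) →
    ∃ Y', sub Y' Y ∧ dim Y' + 1 = dim Y ∧ t Y' ≤ C * N * t Y ∧ val Y' (B / (C * N * t Y) * t Y')
  close : ∀ W (b : ℝ), near W b → val W (b - C * t W)
  avg : ∀ Z (B : ℝ), dim Z = 0 → 0 ≤ B → val Z B → near Z (B / t Z - C)
  liou : ∀ Z (N : ℕ) f (B : ℝ), dim Z = 0 → 1 ≤ N → lev Z N f → ¬ van Z f → val Z B → far Z f →
    B ≤ C * N * t Z

/-- main combinatorial theorem -/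
def SMain : Prop := ∀ (m : ℕ) (C : ℝ) (X₀ : ℕ), 1 ≤ m → 1 ≤ C → ∀ S : Sys m C X₀,
  ∃ c : ℝ, 0 < c ∧ ∀ R : ℝ, ∃ (Z : S.V) (b : ℝ), R ≤ b ∧ S.near Z b ∧ ∀ k < m,
    ∃ W, S.sub Z W ∧ S.dim W = k ∧ c * (S.t W) ^ (m+1) ≤ b ^ (m-k)

end Pool.Agent.Helper21.LR
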