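import Mathlib

/-!
MP_6358c9_nt: the definitions used in the final statement.
-/

open MvPolynomial

namespace Pool.Agent.Helper21.LR

/-- `Z ⊆ ℂ^m` is the common zero set of finitely many polynomials with rational coefficients. -/
def DefOverQ {m : ℕ} (Z : Set (Fin m → ℂ)) : Prop :=
  ∃ S : Finset (MvPolynomial (Fin m) ℚ), Z = {x | ∀ f ∈ S, aeval x f = 0}

/-- `Z` is nonempty and every irreducible component of `Z` (minimal prime over the vanishing ideal
in `ℂ[x_1,…,x_m]`) has dimension `k`. -/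
def PureDim {m : ℕ} (Z : Set (Fin m → ℂ)) (k : ℕ) : Prop :=
  Z.Nonempty ∧ ∀ P ∈ (vanishingIdeal ℂ Z).minimalPrimes,
    ringKrullDim (MvPolynomial (Fin m) ℂ ⧸ P) = k

/-- `p` is a vector of homogeneous coordinates of a point of the projective closure of
`Z ⊆ ℂ^m ⊆ ℙ^m`, where `x` is identified with `(1 : x_1 : … : x_m)`. -/
def InProjClosure {m : ℕ} (Z : Set (Fin m → ℂ)) (p : Fin (m+1) → ℂ) : Prop :=
  p ≠ 0 ∧ ∀ (d : ℕ) (f : MvPolynomial (Fin (m+1)) ℂ), f.IsHomogeneous d →
    (∀ x ∈ Z, eval (Fin.cons 1 x : Fin (m+1) → ℂ) f = 0) → eval p f = 0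

/-- The `k+1` hyperplanes with coefficients `u i 0, …, u i m` have a common point on the
projective closure of `Z`. -/
def Meet {m : ℕ} (Z : Set (Fin m → ℂ)) (k : ℕ) (u : Fin (k+1) × Fin (m+1) → ℂ) : Prop :=
  ∃ p, InProjClosure Z p ∧ ∀ i, ∑ j, u (i, j) * p j = 0

/-- `F` is a Chow form of `Z`: coprime integer coefficients, no repeated factor, and the zero set
of `F` is the set of all tuples of `k+1` hyperplanes with a common point on the closure of `Z`. -/
def IsChowForm {m : ℕ} (Z : Set (Fin m → ℂ)) (k : ℕ)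
    (F : MvPolynomial (Fin (k+1) × Fin (m+1)) ℤ) : Prop :=
  (∀ n : ℤ, C n ∣ F → IsUnit n) ∧ Squarefree F ∧ ∀ u, aeval u F = 0 ↔ Meet Z k u

/-- The largest absolute value of a coefficient of an integer polynomial. -/
def maxCoeff {ι : Type*} (F : MvPolynomial ι ℤ) : ℕ := F.support.sup fun α => (F.coeff α).natAbs

/-- The size `deg F + log H(F)`; for a Chow form `F` of `Z` this is the size `t(Z)`. -/
noncomputable def size {ι : Type*} (F : MvPolynomial ι ℤ) : ℝ :=
  F.totalDegree + Real.log (maxCoeff F)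

end Pool.Agent.Helper21.LR
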