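import Pool.Agent.Helper21.LR.Stmts
import Pool.Agent.Helper21.LR.FinalDefs

open MvPolynomial

namespace Pool.Agent.Helper21.LR

/-- a tuple of hyperplanes meeting on the projective closure is a zero of the Chow form -/
def SMeet1 : Prop := ∀ (m r : ℕ) (ξ : Fin m → ℂ) (F : MvPolynomial (Fin (r+1) × Fin (m+1)) ℤ),
  IsVar r ξ F → ∀ u, Meet {x | OnV ξ x} r u → aeval u F = 0

/-- a zero of the Chow form meets on the projective closure -/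
def SMeet2 : Prop := ∀ (m r : ℕ) (ξ : Fin m → ℂ) (F : MvPolynomial (Fin (r+1) × Fin (m+1)) ℤ),
  IsVar r ξ F → ∀ u, aeval u F = 0 → Meet {x | OnV ξ x} r u

/-- pure dimension -/
def SPure : Prop := ∀ (m r : ℕ) (ξ : Fin m → ℂ) (F : MvPolynomial (Fin (r+1) × Fin (m+1)) ℤ),
  IsVar r ξ F → PureDim {x | OnV ξ x} r

/-- defined over the rationals -/
def SDefQ : Prop := ∀ (m : ℕ) (ξ : Fin m → ℂ), DefOverQ {x | OnV ξ x}

/-- the final statement -/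
def SFinal : Prop := ∀ (m : ℕ), 1 ≤ m → ∀ θ : Fin m → ℂ, ∃ c : ℝ, 0 < c ∧ ∀ k : ℕ, k < m →
  ∀ N : ℕ, ∃ T : ℕ, N ≤ T ∧ ∃ (Z : Set (Fin m → ℂ)) (α : Fin m → ℂ)
    (F : MvPolynomial (Fin (k+1) × Fin (m+1)) ℤ),
    α ∈ Z ∧ DefOverQ Z ∧ PureDim Z k ∧ IsChowForm Z k F ∧
    (F.totalDegree : ℝ) + Real.log (ht F) ≤ (T : ℝ) ^ (m - k) ∧
    ‖θ - α‖ ≤ Real.exp (-c * (T : ℝ) ^ (m + 1))

end Pool.Agent.Helper21.LR
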