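import Pool.Agent.Helper21.LR.Assembly
import Pool.Agent.Helper14.LRNoether
import Pool.Agent.Helper15.LR.LRCover
import Pool.Agent.Helper15.LR.LRSize
import Pool.Agent.Helper15.LR.LRSplit
import Pool.Agent.Helper30.LRGenSplit
import Pool.Agent.Helper37.LR.SGrow
import Pool.Agent.Helper53.LRVal
import Pool.Agent.Helper54.LRCnt
import Pool.Agent.Helper60.LRCount
import Pool.Agent.Helper60.LRUpper
import Pool.Agent.Helper69.LRFactor
import Pool.Agent.Helper75.LR.Bez
import Pool.Agent.Helper75.LR.Mahler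
import Pool.Agent.Helper75.LR.ProdLin
import Pool.Agent.Helper75.LR.Top
import Pool.Agent.Helper77.LRInteg
import Pool.Agent.Helper77.LRInv
import Pool.Agent.Helper77.LRSpecial
import Pool.Agent.Helper84.LRPure
import Pool.Agent.Helper85.LRGenZero
import Pool.Agent.Helper91.LR.LemG
import Pool.Agent.Helper93.LRMeet1
import Pool.Agent.Helper94.LR.Meet2

/-!
MP_6358c9_nt: all modules together.
-/

open MvPolynomial

namespace Pool.Agent.Helper21.LR

theorem allFinal : SFinal := by
  have hSplit : SSplit := Helper15.LR.split Helper30.LR.genSplit Helper77.LRInteg.integ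
    Helper77.LRSpecial.special Helper77.LRInv.inv
  have hz : SSz := Helper53.LR.sz1
  have hSize : SSize := Helper15.LR.size Helper75.LRProdLin.prodLin
  have hVal : SVal := Helper53.LR.val Helper75.LRProdLin.prodLin
  have hFactor : SFactor := Helper69.LRFactor.factor Helper85.LR.genZero
  have hCover : SCover := Helper15.LR.cover hSplit hFactor
  have hNoether : SNoether := Helper14.LRNoether.noether hSplit Helper77.LRInv.inv
  have hHilb : SHilb := Helper91.LR.hilb hNoether
  have hUpper : SUpper := Helper60.LRUpper.upper hSplit hSize hHilb hz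
  have hCnt : SCnt := Helper54.LRCnt.cntBasic hUpper
  have hGrow : SGrow := Helper37.LR.grow
  have hCount : SCount := Helper60.LRCount.count hGrow hUpper hCnt hz
  exact final_of hz dimMono Helper93.LRM.eqv Helper75.LRTop.top hCnt hCount hUpper
    (Helper54.LRCnt.inj hUpper) (Helper54.LRCnt.dir hUpper)
    (Helper75.LRBez.bez1 Helper75.LRMahler.mahler hSplit hCover hSize hz)
    (Helper75.LRBez.bez2 Helper75.LRMahler.mahler hSplit hFactor hSize hVal hz)
    Helper53.LR.close (Helper53.LR.avg Helper75.LRProdLin.prodLin hSplit)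
    (Helper53.LR.liou hSplit hVal) Helper93.LRM.meet1 (Helper94.LR.meet2 hSplit)
    (Helper84.LRPure.pure hNoether) Helper93.LRM.defQ

/-- the conjecture of Laurent and Roy -/
theorem laurentRoy (m : ℕ) (hm : 1 ≤ m) (θ : Fin m → ℂ) : ∃ c : ℝ, 0 < c ∧ ∀ k < m,
    {T : ℕ | 1 ≤ T ∧ ∃ (Z : Set (Fin m → ℂ)) (F : MvPolynomial (Fin (k+1) × Fin (m+1)) ℤ)
      (α : Fin m → ℂ), DefOverQ Z ∧ PureDim Z k ∧ IsChowForm Z k F ∧
        size F ≤ (T : ℝ) ^ (m - k) ∧ α ∈ Z ∧
        ‖θ - α‖ ≤ Real.exp (-(c * (T : ℝ) ^ (m + 1)))}.Infinite := by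
  obtain ⟨c, hc, h⟩ := allFinal m hm θ
  refine ⟨c, hc, fun k hk => ?_⟩
  rw [Set.infinite_iff_exists_gt]
  intro N
  obtain ⟨T, hT, Z, α, F, h1, h2, h3, h4, h5, h6⟩ := h k hk (N + 1)
  refine ⟨T, ⟨by omega, Z, F, α, h2, h3, h4, h5, h1, ?_⟩, by omega⟩
  rwa [neg_mul] at h6

end Pool.Agent.Helper21.LR
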