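import Pool.Agent.Helper21.LR.Stmts

/-!
MP_6358c9_nt: the abstract descent, part 1 (chains and hulls).
-/

namespace Pool.Agent.Helper21.LR

namespace Sys

variable {m : ℕ} {C : ℝ} {X₀ : ℕ}

/-- no function of level `N` on `Y`, nonzero on `Y`, vanishes on `Z` -/
def NoVan (S : Sys m C X₀) (Z Y : S.V) (N : ℕ) : Prop :=
  ∀ f, S.lev Y N f → ¬ S.van Y f → ¬ S.van Z f

structure State (S : Sys m C X₀) (κ : ℝ) (Z : S.V) (T : ℕ) (W : S.V) (Q : ℝ) : Prop where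
  subW : S.sub Z W
  hT : max X₀ 2 ≤ T
  hQ : 0 < Q
  low : ∀ W', S.sub Z W' → S.sub W' W → κ * Q ≤ S.cnt W' T
  up : (T : ℝ) ^ (S.dim W + 1) * S.t W ≤ (2 * C) ^ (m - S.dim W) * Q

lemma State.mono {S : Sys m C X₀} {κ κ' : ℝ} {Z : S.V} {T : ℕ} {W : S.V} {Q : ℝ}
    (h : S.State κ Z T W Q) (hκ : κ' ≤ κ) : S.State κ' Z T W Q where
  subW := h.subW
  hT := h.hT
  hQ := h.hQ
  low W' h1 h2 := le_trans (mul_le_mul_of_nonneg_right hκ h.hQ.le) (h.low W' h1 h2)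
  up := h.up

lemma growth' (hC : 1 ≤ C) (S : Sys m C X₀) (W : S.V) {T X : ℕ} (hT : max X₀ 2 ≤ T) (hX : T ≤ X) :
    (X : ℝ) ^ (S.dim W + 1) * S.cnt W T ≤ C * (2 * (T : ℝ)) ^ (S.dim W + 1) * S.cnt W X := by
  have hT2 : 2 ≤ T := le_trans (le_max_right _ _) hT
  have hT0 : X₀ ≤ T := le_trans (le_max_left _ _) hT
  set K := X / T with hK
  have hK1 : 1 ≤ K := by
    rw [hK]; exact (Nat.one_le_div_iff (by omega)).2 hX
  have hKT : K * T ≤ X := Nat.div_mul_le_self X T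
  have hlt : X < (K + 1) * T := by
    rw [hK]
    have := Nat.lt_div_mul_add (a := X) (b := T) (by omega)
    nlinarith
  have hX2 : (X : ℝ) ≤ 2 * (T : ℝ) * K := by
    have h1 : X ≤ 2 * T * K := by nlinarith
    exact_mod_cast h1
  have hg := S.growth W T K hT0 hK1
  have hm := S.cnt_mono W (K * T) X (by nlinarith) hKT
  have hc1 : 0 ≤ S.cnt W T := by linarith [S.one_le_cnt W T (by omega)]
  calc (X : ℝ) ^ (S.dim W + 1) * S.cnt W T
      ≤ (2 * (T : ℝ) * K) ^ (S.dim W + 1) * S.cnt W T := by gcongr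
    _ = (2 * (T : ℝ)) ^ (S.dim W + 1) * ((K : ℝ) ^ (S.dim W + 1) * S.cnt W T) := by
        rw [mul_pow]; ring
    _ ≤ (2 * (T : ℝ)) ^ (S.dim W + 1) * (C * S.cnt W (K * T)) := by gcongr
    _ ≤ (2 * (T : ℝ)) ^ (S.dim W + 1) * (C * S.cnt W X) := by gcongr
    _ = C * (2 * (T : ℝ)) ^ (S.dim W + 1) * S.cnt W X := by ring

/-- the growth constant attached to a state constant -/
noncomputable def gc (m : ℕ) (C κ : ℝ) : ℝ := κ / ((2 * C) ^ m * C * 2 ^ (m + 1))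

lemma gc_pos (hC : 1 ≤ C) {κ : ℝ} (hκ : 0 < κ) : 0 < gc m C κ := by
  unfold gc; positivity

lemma State.gr (hC : 1 ≤ C) {S : Sys m C X₀} {κ : ℝ} (hκ : 0 < κ) {Z : S.V} {T : ℕ} {W : S.V}
    {Q : ℝ} (h : S.State κ Z T W Q) {X : ℕ} (hX : T ≤ X) :
    gc m C κ * (X : ℝ) ^ (S.dim W + 1) * S.t W ≤ S.cnt W X := by
  have hT2 : 2 ≤ T := le_trans (le_max_right _ _) h.hT
  have hTpos : (0 : ℝ) < T := by exact_mod_cast (by omega : 0 < T)
  have hX1 : 1 ≤ X := by omega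
  have hcX : 0 ≤ S.cnt W X := by linarith [S.one_le_cnt W X hX1]
  have hcT : 0 ≤ S.cnt W T := by linarith [S.one_le_cnt W T (by omega)]
  have h1 : κ * Q ≤ S.cnt W T := h.low W h.subW (S.sub_refl W)
  have h2 := growth' hC S W h.hT hX
  have h3 : (2 * C) ^ (m - S.dim W) ≤ (2 * C) ^ m :=
    pow_le_pow_right₀ (by linarith) (Nat.sub_le _ _)
  have h4 : κ * ((T : ℝ) ^ (S.dim W + 1) * S.t W) ≤ (2 * C) ^ m * S.cnt W T := by
    calc κ * ((T : ℝ) ^ (S.dim W + 1) * S.t W) ≤ κ * ((2 * C) ^ (m - S.dim W) * Q) := by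
          exact mul_le_mul_of_nonneg_left h.up hκ.le
      _ ≤ κ * ((2 * C) ^ m * Q) := by
          have := h.hQ; gcongr
      _ = (2 * C) ^ m * (κ * Q) := by ring
      _ ≤ (2 * C) ^ m * S.cnt W T := by gcongr
  have h5 : (2 : ℝ) ^ (S.dim W + 1) ≤ 2 ^ (m + 1) :=
    pow_le_pow_right₀ (by norm_num) (by have := S.dim_le W; omega)
  have h6 : κ * (X : ℝ) ^ (S.dim W + 1) * S.t W * (T : ℝ) ^ (S.dim W + 1) ≤
      ((2 * C) ^ m * C * 2 ^ (m + 1)) * S.cnt W X * (T : ℝ) ^ (S.dim W + 1) := by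
    calc κ * (X : ℝ) ^ (S.dim W + 1) * S.t W * (T : ℝ) ^ (S.dim W + 1)
        = (X : ℝ) ^ (S.dim W + 1) * (κ * ((T : ℝ) ^ (S.dim W + 1) * S.t W)) := by ring
      _ ≤ (X : ℝ) ^ (S.dim W + 1) * ((2 * C) ^ m * S.cnt W T) := by gcongr
      _ = (2 * C) ^ m * ((X : ℝ) ^ (S.dim W + 1) * S.cnt W T) := by ring
      _ ≤ (2 * C) ^ m * (C * (2 * (T : ℝ)) ^ (S.dim W + 1) * S.cnt W X) := by gcongr
      _ = (2 * C) ^ m * (C * 2 ^ (S.dim W + 1) * (T : ℝ) ^ (S.dim W + 1) * S.cnt W X) := by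
          rw [mul_pow 2 (T : ℝ)]; ring
      _ ≤ (2 * C) ^ m * (C * 2 ^ (m + 1) * (T : ℝ) ^ (S.dim W + 1) * S.cnt W X) := by gcongr
      _ = _ := by ring
  have h7 := le_of_mul_le_mul_right h6 (by positivity)
  unfold gc
  rw [div_mul_eq_mul_div, div_mul_eq_mul_div, div_le_iff₀ (by positivity)]
  linarith

/-- the step constant -/
noncomputable def sc (m : ℕ) (C : ℝ) : ℝ := (2 * C) ^ m * C * 2 ^ (m + 1) * 2 ^ (m + 1)

lemma sc_ge (hC : 1 ≤ C) : 1 ≤ sc m C := by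
  unfold sc
  have h1 : (1 : ℝ) ≤ (2 * C) ^ m := one_le_pow₀ (by linarith)
  have h2 : (1 : ℝ) ≤ 2 ^ (m + 1) := one_le_pow₀ (by norm_num)
  calc (1 : ℝ) = 1 * 1 * 1 * 1 := by norm_num
    _ ≤ _ := by gcongr

lemma dim_pos_of_van {S : Sys m C X₀} {Z W : S.V} (h : S.sub Z W) {f : S.Fn}
    (h1 : ¬ S.van W f) (h2 : S.van Z f) : S.dim Z < S.dim W := by
  by_contra hlt
  exact h1 (S.van_sub W Z f (S.eq_of_dim Z W h (by omega)) h2)

/-- one step of the chain -/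
lemma State.step (hC : 1 ≤ C) {S : Sys m C X₀} {κ : ℝ} (hκ : 0 < κ) {Z : S.V} {T : ℕ} {W : S.V}
    {Q : ℝ} (h : S.State κ Z T W Q) {τ : ℕ} (hτ1 : 1 ≤ τ) {f : S.Fn} (hf : S.lev W τ f)
    (hfW : ¬ S.van W f) (hfZ : S.van Z f) (hmin : ∀ τ' < τ, 1 ≤ τ' → S.NoVan Z W τ') :
    ∃ (W' : S.V) (T' : ℕ) (Q' : ℝ), S.sub W' W ∧ S.dim W' + 1 = S.dim W ∧
      S.t W' ≤ C * τ * S.t W ∧ S.State (κ / sc m C) Z T' W' Q' ∧ T ≤ T' ∧ T' ≤ max T (τ - 1) ∧
      τ ≤ 2 * T' ∧ (κ / sc m C) * (T' : ℝ) ^ (S.dim W + 1) * S.t W ≤ S.cnt Z T' := by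
  have hd := dim_pos_of_van h.subW hfW hfZ
  obtain ⟨W', h1, h2, h3, h4⟩ := S.bez1 W Z τ f hτ1 (by omega) h.subW hf hfW hfZ
  have hT2 : 2 ≤ T := le_trans (le_max_right _ _) h.hT
  have hsc := sc_ge (m := m) hC
  have hsc0 : 0 < sc m C := by linarith
  have hdm := S.dim_le W
  have htW := S.one_le_t W
  have htW' := S.one_le_t W'
  have hκsc : κ / sc m C ≤ κ := div_le_self hκ.le hsc
  rcases Nat.lt_or_ge T (τ - 1) with hc | hc
  · -- new anchor
    refine ⟨W', τ - 1, ((τ - 1 : ℕ) : ℝ) ^ (S.dim W + 1) * S.t W, h1, h3, h4, ?_, by omega,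
      le_max_right _ _, by omega, ?_⟩
    · have hlow : ∀ W'', S.sub Z W'' → S.sub W'' W →
          κ / sc m C * (((τ - 1 : ℕ) : ℝ) ^ (S.dim W + 1) * S.t W) ≤ S.cnt W'' (τ - 1) := by
        intro W'' hz hw
        have hinj := S.inj W'' W (τ - 2) (by omega) hw (by
          intro g hg hgW hgW''
          have : τ - 2 + 1 = τ - 1 := by omega
          rw [this] at hg
          exact hmin (τ - 1) (by omega) (by omega) g hg hgW (S.van_sub Z W'' g hz hgW''))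
        have hgr := h.gr hC hκ (X := τ - 2) (by omega)
        have hmono := S.cnt_mono W'' (τ - 2) (τ - 1) (by omega) (by omega)
        have hhalf : (((τ - 1 : ℕ) : ℝ)) / 2 ≤ ((τ - 2 : ℕ) : ℝ) := by
          rw [div_le_iff₀ (by norm_num)]
          have : τ - 1 ≤ (τ - 2) * 2 := by omega
          exact_mod_cast this
        have hpow : (((τ - 1 : ℕ) : ℝ)) ^ (S.dim W + 1) / 2 ^ (m + 1) ≤
            ((τ - 2 : ℕ) : ℝ) ^ (S.dim W + 1) := by
          calc (((τ - 1 : ℕ) : ℝ)) ^ (S.dim W + 1) / 2 ^ (m + 1)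
              ≤ (((τ - 1 : ℕ) : ℝ)) ^ (S.dim W + 1) / 2 ^ (S.dim W + 1) := by
                gcongr
                · norm_num
            _ = ((((τ - 1 : ℕ) : ℝ)) / 2) ^ (S.dim W + 1) := by rw [div_pow]
            _ ≤ _ := by gcongr
        calc κ / sc m C * (((τ - 1 : ℕ) : ℝ) ^ (S.dim W + 1) * S.t W)
            = gc m C κ * ((((τ - 1 : ℕ) : ℝ)) ^ (S.dim W + 1) / 2 ^ (m + 1)) * S.t W := by
              unfold gc sc; field_simp
          _ ≤ gc m C κ * ((τ - 2 : ℕ) : ℝ) ^ (S.dim W + 1) * S.t W := by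
              have := gc_pos (m := m) hC hκ
              gcongr
          _ ≤ S.cnt W (τ - 2) := hgr
          _ ≤ S.cnt W'' (τ - 2) := hinj
          _ ≤ S.cnt W'' (τ - 1) := hmono
      refine ⟨h2, le_trans h.hT (by omega), ?_, fun W'' hz hw => hlow W'' hz
        (S.sub_trans _ _ _ hw h1), ?_⟩
      · have : (0 : ℝ) < ((τ - 1 : ℕ) : ℝ) := by exact_mod_cast (by omega : 0 < τ - 1)
        positivity
      · have hτ2 : (τ : ℝ) ≤ 2 * ((τ - 1 : ℕ) : ℝ) := by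
          have : τ ≤ 2 * (τ - 1) := by omega
          exact_mod_cast this
        have hexp : (2 * C) ^ 1 ≤ (2 * C) ^ (m - S.dim W') :=
          pow_le_pow_right₀ (by linarith) (by omega)
        rw [h3]
        calc ((τ - 1 : ℕ) : ℝ) ^ (S.dim W) * S.t W'
            ≤ ((τ - 1 : ℕ) : ℝ) ^ (S.dim W) * (C * τ * S.t W) := by gcongr
          _ ≤ ((τ - 1 : ℕ) : ℝ) ^ (S.dim W) * (C * (2 * ((τ - 1 : ℕ) : ℝ)) * S.t W) := by gcongr
          _ = (2 * C) ^ 1 * (((τ - 1 : ℕ) : ℝ) ^ (S.dim W + 1) * S.t W) := by ring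
          _ ≤ _ := by gcongr
    · have hinj := S.inj Z W (τ - 2) (by omega) h.subW (by
          intro g hg hgW hgZ
          have : τ - 2 + 1 = τ - 1 := by omega
          rw [this] at hg
          exact hmin (τ - 1) (by omega) (by omega) g hg hgW hgZ)
      have hgr := h.gr hC hκ (X := τ - 2) (by omega)
      have hmono := S.cnt_mono Z (τ - 2) (τ - 1) (by omega) (by omega)
      have hhalf : (((τ - 1 : ℕ) : ℝ)) / 2 ≤ ((τ - 2 : ℕ) : ℝ) := by
        rw [div_le_iff₀ (by norm_num)]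
        have : τ - 1 ≤ (τ - 2) * 2 := by omega
        exact_mod_cast this
      have hpow : (((τ - 1 : ℕ) : ℝ)) ^ (S.dim W + 1) / 2 ^ (m + 1) ≤
          ((τ - 2 : ℕ) : ℝ) ^ (S.dim W + 1) := by
        calc (((τ - 1 : ℕ) : ℝ)) ^ (S.dim W + 1) / 2 ^ (m + 1)
            ≤ (((τ - 1 : ℕ) : ℝ)) ^ (S.dim W + 1) / 2 ^ (S.dim W + 1) := by
              gcongr
              · norm_num
          _ = ((((τ - 1 : ℕ) : ℝ)) / 2) ^ (S.dim W + 1) := by rw [div_pow]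
          _ ≤ _ := by gcongr
      calc κ / sc m C * ((τ - 1 : ℕ) : ℝ) ^ (S.dim W + 1) * S.t W
          = gc m C κ * ((((τ - 1 : ℕ) : ℝ)) ^ (S.dim W + 1) / 2 ^ (m + 1)) * S.t W := by
            unfold gc sc; field_simp
        _ ≤ gc m C κ * ((τ - 2 : ℕ) : ℝ) ^ (S.dim W + 1) * S.t W := by
            have := gc_pos (m := m) hC hκ
            gcongr
        _ ≤ S.cnt W (τ - 2) := hgr
        _ ≤ S.cnt Z (τ - 2) := hinj
        _ ≤ S.cnt Z (τ - 1) := hmono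
  · -- same anchor
    have hτT : (τ : ℝ) ≤ 2 * (T : ℝ) := by
      have : τ ≤ 2 * T := by omega
      exact_mod_cast this
    have hTpos : (0 : ℝ) < T := by exact_mod_cast (by omega : 0 < T)
    have hstate : S.State (κ / sc m C) Z T W' Q := by
      refine ⟨h2, h.hT, h.hQ, fun W'' hz hw => ?_, ?_⟩
      · have := h.low W'' hz (S.sub_trans _ _ _ hw h1)
        have h' : κ / sc m C * Q ≤ κ * Q := mul_le_mul_of_nonneg_right hκsc h.hQ.le
        linarith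
      · rw [h3]
        have he : m - S.dim W' = (m - S.dim W) + 1 := by omega
        rw [he, pow_succ]
        calc (T : ℝ) ^ (S.dim W) * S.t W' ≤ (T : ℝ) ^ (S.dim W) * (C * τ * S.t W) := by gcongr
          _ ≤ (T : ℝ) ^ (S.dim W) * (C * (2 * T) * S.t W) := by gcongr
          _ = (2 * C) * ((T : ℝ) ^ (S.dim W + 1) * S.t W) := by ring
          _ ≤ (2 * C) * ((2 * C) ^ (m - S.dim W) * Q) := by
              have := h.up
              gcongr
          _ = _ := by ring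
    refine ⟨W', T, Q, h1, h3, h4, hstate, le_rfl, le_max_left _ _, by omega, ?_⟩
    have hlow := h.low Z (S.sub_refl Z) h.subW
    have h3' : (2 * C) ^ (m - S.dim W) ≤ (2 * C) ^ m :=
      pow_le_pow_right₀ (by linarith) (Nat.sub_le _ _)
    have hcZ : 0 ≤ S.cnt Z T := by linarith [S.one_le_cnt Z T (by omega)]
    have hQ := h.hQ
    have hscm : (2 * C) ^ m ≤ sc m C := by
      unfold sc
      have h2' : (1 : ℝ) ≤ 2 ^ (m + 1) := one_le_pow₀ (by norm_num)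
      have h0 : (0:ℝ) ≤ (2 * C) ^ m := by positivity
      calc (2 * C) ^ m = (2 * C) ^ m * 1 * 1 * 1 := by ring
        _ ≤ _ := by gcongr
    calc κ / sc m C * (T : ℝ) ^ (S.dim W + 1) * S.t W
        = κ / sc m C * ((T : ℝ) ^ (S.dim W + 1) * S.t W) := by ring
      _ ≤ κ / sc m C * ((2 * C) ^ (m - S.dim W) * Q) := by
          have := h.up
          gcongr
      _ ≤ κ / sc m C * (sc m C * Q) := by gcongr; exact h3'.trans hscm
      _ = κ * Q := by field_simp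
      _ ≤ S.cnt Z T := hlow

end Sys

end Pool.Agent.Helper21.LR
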