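import Pool.Agent.Helper21.LR.Main1

/-!
MP_6358c9_nt: the abstract descent, part 2 (hulls and flags).
-/

namespace Pool.Agent.Helper21.LR

namespace Sys

variable {m : ℕ} {C : ℝ} {X₀ : ℕ}

/-- the minimal level -/
lemma exists_min {S : Sys m C X₀} {Z W : S.V} {N : ℕ} (hN : 1 ≤ N) (h : ¬ S.NoVan Z W N) :
    ∃ (τ : ℕ) (f : S.Fn), 1 ≤ τ ∧ τ ≤ N ∧ S.lev W τ f ∧ ¬ S.van W f ∧ S.van Z f ∧
      ∀ τ' < τ, 1 ≤ τ' → S.NoVan Z W τ' := by
  classical
  have hex : ∃ τ, 1 ≤ τ ∧ ¬ S.NoVan Z W τ := ⟨N, hN, h⟩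
  have hspec := Nat.find_spec hex
  have hmin := fun τ' (h' : τ' < Nat.find hex) => Nat.find_min hex h'
  have hle : Nat.find hex ≤ N := Nat.find_le ⟨hN, h⟩
  set τ := Nat.find hex
  obtain ⟨h1, h2⟩ := hspec
  unfold NoVan at h2
  push Not at h2
  obtain ⟨f, hf1, hf2, hf3⟩ := h2
  refine ⟨τ, f, h1, hle, hf1, hf2, hf3, fun τ' hτ' h1' => ?_⟩
  have := hmin τ' hτ'
  push Not at this
  exact this h1'

lemma State.hull (hC : 1 ≤ C) {S : Sys m C X₀} (n : ℕ) : ∀ {κ : ℝ}, 0 < κ → ∀ {Z : S.V} {T : ℕ}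
    {W : S.V} {Q : ℝ}, S.State κ Z T W Q → S.dim W = n → ∀ N : ℕ, T ≤ N →
    ∃ (Y : S.V) (T' : ℕ) (Q' : ℝ), S.sub Y W ∧ S.State (κ / sc m C ^ n) Z T' Y Q' ∧ T' ≤ N ∧
      S.NoVan Z Y (N + 1) ∧ S.t Y ≤ (2 * C * N) ^ (S.dim W - S.dim Y) * S.t W := by
  induction n with
  | zero =>
    intro κ hκ Z T W Q h hd N hN
    refine ⟨W, T, Q, S.sub_refl W, by simpa using h, hN, ?_, by simp⟩
    intro f _ hfW hfZ
    have := dim_pos_of_van h.subW hfW hfZ
    omega
  | succ n ih =>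
    intro κ hκ Z T W Q h hd N hN
    have hsc := sc_ge (m := m) hC
    have hsc0 : 0 < sc m C := by linarith
    by_cases hv : S.NoVan Z W (N + 1)
    · refine ⟨W, T, Q, S.sub_refl W, h.mono ?_, hN, hv, by simp⟩
      exact div_le_self hκ.le (one_le_pow₀ hsc)
    · obtain ⟨τ, f, hτ1, hτN, hf1, hf2, hf3, hmin⟩ := exists_min (by omega) hv
      obtain ⟨W', T₁, Q₁, h1, h2, h3, h4, h5, h6, -, -⟩ := h.step hC hκ hτ1 hf1 hf2 hf3 hmin
      have hT₁ : T₁ ≤ N := by omega
      obtain ⟨Y, T', Q', g1, g2, g3, g4, g5⟩ := ih (div_pos hκ hsc0) h4 (by omega) N hT₁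
      refine ⟨Y, T', Q', S.sub_trans _ _ _ g1 h1, ?_, g3, g4, ?_⟩
      · have : κ / sc m C ^ (n + 1) = κ / sc m C / sc m C ^ n := by
          rw [pow_succ]; field_simp
        rw [this]; exact g2
      · have hdY := S.dim_mono Y W' g1
        have he : S.dim W - S.dim Y = (S.dim W' - S.dim Y) + 1 := by omega
        have hN1 : 1 ≤ N := by
          have := h.hT
          have : 2 ≤ T := le_trans (le_max_right _ _) this
          omega
        have hτ2 : (τ : ℝ) ≤ 2 * N := by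
          have : τ ≤ 2 * N := by omega
          exact_mod_cast this
        have htW := S.one_le_t W
        have hNpos : (0 : ℝ) ≤ N := by positivity
        rw [he, pow_succ]
        calc S.t Y ≤ (2 * C * N) ^ (S.dim W' - S.dim Y) * S.t W' := g5
          _ ≤ (2 * C * N) ^ (S.dim W' - S.dim Y) * (C * τ * S.t W) := by gcongr
          _ ≤ (2 * C * N) ^ (S.dim W' - S.dim Y) * (C * (2 * N) * S.t W) := by gcongr
          _ = _ := by ring

/-- the value of `Q` at the start of the chain -/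
noncomputable def Qtop (S : Sys m C X₀) : ℝ := ((max X₀ 2 : ℕ) : ℝ) ^ (m + 1) * S.t S.top

lemma Qtop_pos (S : Sys m C X₀) : 0 < S.Qtop := by
  unfold Qtop
  have h1 : (0 : ℝ) < ((max X₀ 2 : ℕ) : ℝ) := by
    exact_mod_cast (lt_of_lt_of_le (by norm_num : 0 < 2) (le_max_right X₀ 2))
  have h2 := S.one_le_t S.top
  positivity

lemma state_top (S : Sys m C X₀) (Z : S.V) :
    S.State (1 / S.Qtop) Z (max X₀ 2) S.top S.Qtop where
  subW := S.sub_top Z
  hT := le_rfl
  hQ := S.Qtop_pos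
  low W' _ _ := by
    have := S.Qtop_pos
    rw [one_div_mul_cancel this.ne']
    exact S.one_le_cnt W' _ (by have := le_max_right X₀ 2; omega)
  up := by
    rw [S.dim_top]; simp [Qtop]

lemma exists_van (hC : 1 ≤ C) {S : Sys m C X₀} {κ : ℝ} (hκ : 0 < κ) {Z : S.V} {T : ℕ} {W : S.V}
    {Q : ℝ} (h : S.State κ Z T W Q) (hd : S.dim Z < S.dim W) : ∃ N, 1 ≤ N ∧ ¬ S.NoVan Z W N := by
  by_contra hcon
  push Not at hcon
  have hT2 : 2 ≤ T := le_trans (le_max_right _ _) h.hT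
  have hg := gc_pos (m := m) hC hκ
  obtain ⟨n, hn⟩ := exists_nat_gt (C * S.t Z / gc m C κ)
  set X := max T n with hX
  have hXT : T ≤ X := le_max_left _ _
  have hXn : n ≤ X := le_max_right _ _
  have hXpos : (0 : ℝ) < X := by exact_mod_cast (by omega : 0 < X)
  have hX1 : (1 : ℝ) ≤ X := by exact_mod_cast (by omega : 1 ≤ X)
  have h1 := h.gr hC hκ hXT
  have h2 := S.inj Z W X (by omega) h.subW (hcon (X + 1) (by omega))
  have h3 := S.upper Z X (by omega)
  have htW := S.one_le_t W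
  have htZ := S.one_le_t Z
  have h4 : gc m C κ * (X : ℝ) ^ (S.dim W + 1) ≤ C * (X : ℝ) ^ (S.dim W) * S.t Z := by
    calc gc m C κ * (X : ℝ) ^ (S.dim W + 1) = gc m C κ * (X : ℝ) ^ (S.dim W + 1) * 1 := by ring
      _ ≤ gc m C κ * (X : ℝ) ^ (S.dim W + 1) * S.t W := by gcongr
      _ ≤ S.cnt W X := h1
      _ ≤ S.cnt Z X := h2
      _ ≤ C * (X : ℝ) ^ (S.dim Z + 1) * S.t Z := h3
      _ ≤ C * (X : ℝ) ^ (S.dim W) * S.t Z := by gcongr; omega
  have h5 : gc m C κ * X ≤ C * S.t Z := by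
    have : gc m C κ * X * (X : ℝ) ^ (S.dim W) ≤ C * S.t Z * (X : ℝ) ^ (S.dim W) := by
      calc gc m C κ * X * (X : ℝ) ^ (S.dim W) = gc m C κ * (X : ℝ) ^ (S.dim W + 1) := by ring
        _ ≤ _ := h4
        _ = _ := by ring
    exact le_of_mul_le_mul_right this (by positivity)
  have h6 : C * S.t Z / gc m C κ < X := lt_of_lt_of_le hn (by exact_mod_cast hXn)
  rw [div_lt_iff₀ hg] at h6
  linarith

/-- flags of varieties containing a given variety of dimension zero -/
lemma flag (hC : 1 ≤ C) (hm : 1 ≤ m) (S : Sys m C X₀) (i : ℕ) (hi : i ≤ m) :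
    ∃ K : ℝ, 1 ≤ K ∧ ∀ Z : S.V, S.dim Z = 0 → ∃ (T : ℕ) (W : S.V) (Q : ℝ),
      S.State (1 / S.Qtop / sc m C ^ i) Z T W Q ∧ S.dim W + i = m ∧
      S.t W ^ m ≤ K * S.t Z ^ i := by
  induction i with
  | zero =>
    refine ⟨S.t S.top ^ m, one_le_pow₀ (S.one_le_t _), fun Z _ => ⟨max X₀ 2, S.top, S.Qtop, ?_, ?_, ?_⟩⟩
    · simpa using S.state_top Z
    · simpa using S.dim_top
    · simp
  | succ i ih =>
    obtain ⟨K, hK1, hK⟩ := ih (by omega)
    have hsc := sc_ge (m := m) hC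
    have hsc0 : 0 < sc m C := by linarith
    have hQ := S.Qtop_pos
    set κ := 1 / S.Qtop / sc m C ^ i with hκdef
    have hκ : 0 < κ := by positivity
    set d := m - i with hd
    have hd1 : 1 ≤ d := by omega
    set L : ℝ := ((2 * C) ^ d * (C / (κ / sc m C))) ^ m * K ^ (d - 1) with hL
    refine ⟨max 1 L, le_max_left _ _, fun Z hZ => ?_⟩
    obtain ⟨T, W, Q, h, hdW, htK⟩ := hK Z hZ
    have hdWd : S.dim W = d := by omega
    obtain ⟨N, hN1, hN⟩ := exists_van hC hκ h (by omega)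
    obtain ⟨τ, f, hτ1, -, hf1, hf2, hf3, hmin⟩ := exists_min hN1 hN
    obtain ⟨W', T', Q', h1, h2, h3, h4, h5, h6, h7, h8⟩ := h.step hC hκ hτ1 hf1 hf2 hf3 hmin
    refine ⟨T', W', Q', ?_, by omega, ?_⟩
    · have : 1 / S.Qtop / sc m C ^ (i + 1) = κ / sc m C := by
        rw [hκdef, pow_succ]; field_simp
      rw [this]; exact h4
    · have htW := S.one_le_t W
      have htW' := S.one_le_t W'
      have htZ := S.one_le_t Z
      have hT'2 : 2 ≤ T' := le_trans (le_max_right _ _) h4.hT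
      have hT'pos : (0 : ℝ) < T' := by exact_mod_cast (by omega : 0 < T')
      have hup := S.upper Z T' (by omega)
      rw [hZ, zero_add, pow_one] at hup
      have hks : 0 < κ / sc m C := div_pos hκ hsc0
      -- T'^d * t W ≤ (C/(κ/sc)) * t Z
      have e1 : (T' : ℝ) ^ d * S.t W ≤ C / (κ / sc m C) * S.t Z := by
        have : κ / sc m C * ((T' : ℝ) ^ d * S.t W) * T' ≤ C * S.t Z * T' := by
          calc κ / sc m C * ((T' : ℝ) ^ d * S.t W) * T'
              = κ / sc m C * (T' : ℝ) ^ (S.dim W + 1) * S.t W := by rw [hdWd]; ring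
            _ ≤ S.cnt Z T' := h8
            _ ≤ _ := hup
            _ = _ := by ring
        have := le_of_mul_le_mul_right this hT'pos
        rw [div_mul_eq_mul_div, le_div_iff₀ hks]
        linarith
      have e2 : S.t W' ≤ 2 * C * T' * S.t W := by
        have : (τ : ℝ) ≤ 2 * T' := by exact_mod_cast h7
        calc S.t W' ≤ C * τ * S.t W := h3
          _ ≤ C * (2 * T') * S.t W := by gcongr
          _ = _ := by ring
      have e3 : S.t W' ^ d ≤ (2 * C) ^ d * (C / (κ / sc m C)) * S.t Z * S.t W ^ (d - 1) := by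
        calc S.t W' ^ d ≤ (2 * C * T' * S.t W) ^ d := by gcongr
          _ = (2 * C) ^ d * ((T' : ℝ) ^ d * S.t W) * S.t W ^ (d - 1) := by
              have : d = (d - 1) + 1 := by omega
              rw [mul_pow, mul_pow, this]
              simp only [Nat.add_sub_cancel]
              ring
          _ ≤ (2 * C) ^ d * (C / (κ / sc m C) * S.t Z) * S.t W ^ (d - 1) := by gcongr
          _ = _ := by ring
      have e4 : (S.t W' ^ m) ^ d ≤ L * (S.t Z ^ (i + 1)) ^ d := by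
        calc (S.t W' ^ m) ^ d = (S.t W' ^ d) ^ m := by rw [← pow_mul, ← pow_mul, mul_comm]
          _ ≤ ((2 * C) ^ d * (C / (κ / sc m C)) * S.t Z * S.t W ^ (d - 1)) ^ m := by gcongr
          _ = ((2 * C) ^ d * (C / (κ / sc m C))) ^ m * S.t Z ^ m * (S.t W ^ m) ^ (d - 1) := by
              rw [mul_pow, mul_pow, ← pow_mul, ← pow_mul, mul_comm (d - 1) m]
          _ ≤ ((2 * C) ^ d * (C / (κ / sc m C))) ^ m * S.t Z ^ m * (K * S.t Z ^ i) ^ (d - 1) := by
              gcongr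
          _ = L * (S.t Z ^ m * (S.t Z ^ i) ^ (d - 1)) := by rw [hL, mul_pow]; ring
          _ = L * (S.t Z ^ (i + 1)) ^ d := by
              congr 1
              rw [← pow_mul, ← pow_mul, ← pow_add]
              congr 1
              have hmd : m = d + i := by omega
              obtain ⟨d', hd'⟩ : ∃ d', d = d' + 1 := ⟨d - 1, by omega⟩
              rw [hmd, hd']
              simp only [Nat.add_sub_cancel]
              ring
      by_contra hlt
      push Not at hlt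
      have hM1 : (1 : ℝ) ≤ max 1 L := le_max_left _ _
      have hML : L ≤ max 1 L := le_max_right _ _
      have : (max 1 L * S.t Z ^ (i + 1)) ^ d < (S.t W' ^ m) ^ d := by
        gcongr
      have h9 : L * (S.t Z ^ (i + 1)) ^ d ≤ (max 1 L * S.t Z ^ (i + 1)) ^ d := by
        rw [mul_pow]
        gcongr
        calc L ≤ max 1 L := hML
          _ = (max 1 L) ^ 1 := (pow_one _).symm
          _ ≤ (max 1 L) ^ d := pow_le_pow_right₀ hM1 hd1
      linarith

end Sys

end Pool.Agent.Helper21.LR
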