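import Pool.Agent.Helper21.LR.Main2

/-!
MP_6358c9_nt: the abstract descent, part 3 (descent to dimension zero, key trick).
-/

namespace Pool.Agent.Helper21.LR

namespace Sys

variable {m : ℕ} {C : ℝ} {X₀ : ℕ}

/-- `τ_X(Y) = X^(dim Y + 1) t(Y)` -/
noncomputable def tau (S : Sys m C X₀) (X : ℕ) (Y : S.V) : ℝ := (X : ℝ) ^ (S.dim Y + 1) * S.t Y

/-- constants -/
noncomputable def k1 (S : Sys m C X₀) : ℝ := 1 / S.Qtop / sc m C ^ m
noncomputable def k2 (S : Sys m C X₀) : ℝ := S.k1 / sc m C ^ m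
noncomputable def g1 (S : Sys m C X₀) : ℝ := gc m C S.k1
noncomputable def g2 (S : Sys m C X₀) : ℝ := gc m C S.k2

lemma k1_pos (hC : 1 ≤ C) (S : Sys m C X₀) : 0 < S.k1 := by
  have := sc_ge (m := m) hC
  have h2 := S.Qtop_pos
  unfold k1; positivity

lemma k2_pos (hC : 1 ≤ C) (S : Sys m C X₀) : 0 < S.k2 := by
  have := sc_ge (m := m) hC
  have h2 := S.k1_pos hC
  unfold k2; positivity

lemma g1_pos (hC : 1 ≤ C) (S : Sys m C X₀) : 0 < S.g1 := gc_pos hC (S.k1_pos hC)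

lemma g2_pos (hC : 1 ≤ C) (S : Sys m C X₀) : 0 < S.g2 := gc_pos hC (S.k2_pos hC)

/-- hull from the top -/
lemma hull_top (hC : 1 ≤ C) (S : Sys m C X₀) (Z : S.V) (N : ℕ) (hN : max X₀ 2 ≤ N) :
    ∃ (Y : S.V) (T : ℕ) (Q : ℝ), S.State S.k1 Z T Y Q ∧ T ≤ N ∧ S.NoVan Z Y (N + 1) ∧
      S.t Y ≤ (2 * C * N) ^ (m - S.dim Y) * S.t S.top := by
  have hQ := S.Qtop_pos
  obtain ⟨Y, T, Q, -, h2, h3, h4, h5⟩ := (S.state_top Z).hull hC m (by positivity) S.dim_top N hN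
  rw [S.dim_top] at h5
  exact ⟨Y, T, Q, h2, h3, h4, h5⟩

lemma one_le_tau (S : Sys m C X₀) {X : ℕ} (hX : 1 ≤ X) (Y : S.V) : 1 ≤ S.tau X Y := by
  unfold tau
  have h1 : (1 : ℝ) ≤ (X : ℝ) ^ (S.dim Y + 1) := one_le_pow₀ (by exact_mod_cast hX)
  have h2 := S.one_le_t Y
  nlinarith

/-- one step of the descent -/
lemma descend_step (hC : 1 ≤ C) (S : Sys m C X₀) (A : ℕ) (hA1 : 1 ≤ A)
    (hA : 8 ≤ S.g1 * (A : ℝ) ^ 2) (κ : ℝ) (X : ℕ) (hX0 : max X₀ 2 ≤ X) (hXg : 4 * C ≤ S.g1 * X)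
    (hXC : C ≤ X) (hXκ : 2 * C * A ≤ κ * X) (B₀ : ℝ)
    (hB₀ : ∀ Y, S.val Y (S.tau X Y) → B₀ ≤ 2 * S.tau X Y) (V : S.V) (hV : 1 ≤ S.dim V)
    (κ' : ℝ) (hκ : κ ≤ κ') (hκ1 : κ' ≤ 1) (hκ0 : 0 < κ) (hval : S.val V (κ' * S.tau X V))
    (hle : κ' * S.tau X V ≤ B₀) :
    ∃ V' : S.V, S.dim V' + 1 = S.dim V ∧ S.val V' (κ' / (2 * C * A) * S.tau X V') ∧
      κ' / (2 * C * A) * S.tau X V' ≤ B₀ := by
  have hg := S.g1_pos hC
  have hX2 : 2 ≤ X := le_trans (le_max_right _ _) hX0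
  have hXpos : (0 : ℝ) < X := by exact_mod_cast (by omega : 0 < X)
  have hX1 : (1 : ℝ) ≤ X := by exact_mod_cast (by omega : 1 ≤ X)
  have hA1' : (1 : ℝ) ≤ A := by exact_mod_cast hA1
  have hκ'0 : 0 < κ' := lt_of_lt_of_le hκ0 hκ
  set N := A * X with hN
  have hXN : X ≤ N := by rw [hN]; nlinarith
  obtain ⟨Y, T, Q, h1, h2, h3, -⟩ := S.hull_top hC V N (le_trans hX0 hXN)
  have hgr := h1.gr hC (S.k1_pos hC) h2
  obtain ⟨f, hf1, hf2, hf3⟩ := S.dir Y N (by omega)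
  have hfV : ¬ S.van V f := h3 f hf1 hf2
  have hfVlev : S.lev V (N + 1) f := S.lev_sub V Y (N + 1) f h1.subW hf1
  have hdY : 1 ≤ S.dim Y := le_trans hV (S.dim_mono V Y h1.subW)
  have htY := S.one_le_t Y
  have htV := S.one_le_t V
  have hNR : (N : ℝ) = A * X := by rw [hN]; push_cast; ring
  -- v(f) is large
  have hv : S.g1 / 4 * (A : ℝ) ^ 2 * S.tau X Y ≤ S.cnt Y N / 2 - C * N := by
    have e1 : S.g1 * (A : ℝ) ^ 2 * S.tau X Y ≤ S.cnt Y N := by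
      calc S.g1 * (A : ℝ) ^ 2 * S.tau X Y
          ≤ S.g1 * (A : ℝ) ^ (S.dim Y + 1) * S.tau X Y := by
            have : 0 ≤ S.tau X Y := by linarith [S.one_le_tau (by omega : 1 ≤ X) Y]
            gcongr
            omega
        _ = S.g1 * (N : ℝ) ^ (S.dim Y + 1) * S.t Y := by
            rw [hNR, mul_pow]; unfold tau; ring
        _ ≤ S.cnt Y N := hgr
    have e2 : C * N ≤ S.g1 / 4 * (A : ℝ) ^ 2 * S.tau X Y := by
      have e3 : (X : ℝ) ^ 2 ≤ S.tau X Y := by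
        unfold tau
        calc (X : ℝ) ^ 2 = (X : ℝ) ^ 2 * 1 := by ring
          _ ≤ (X : ℝ) ^ (S.dim Y + 1) * S.t Y := by
            gcongr
            omega
      calc C * N = C * A * X := by rw [hNR]; ring
        _ ≤ C * (A * A) * X := by
          have : (A : ℝ) ≤ A * A := by nlinarith
          gcongr
        _ = (4 * C) * (A : ℝ) ^ 2 * X / 4 := by ring
        _ ≤ (S.g1 * X) * (A : ℝ) ^ 2 * X / 4 := by gcongr
        _ = S.g1 / 4 * (A : ℝ) ^ 2 * (X : ℝ) ^ 2 := by ring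
        _ ≤ _ := by gcongr
    linarith
  have hA2 : 2 * S.tau X Y ≤ S.g1 / 4 * (A : ℝ) ^ 2 * S.tau X Y := by
    have : 0 ≤ S.tau X Y := by linarith [S.one_le_tau (by omega : 1 ≤ X) Y]
    nlinarith
  -- dichotomy
  have hcase : S.sm f (κ' * S.tau X V) ∨ S.far V f := by
    by_cases hY : S.val Y (S.tau X Y)
    · left
      exact S.sm_anti f _ _ (by linarith [hB₀ Y hY]) hf3
    · have hsm : S.sm f (2 * S.tau X Y) := S.sm_anti f _ _ (by linarith) hf3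
      rcases S.dich V f _ hsm with h | h
      · exfalso
        apply hY
        refine S.val_anti Y _ _ ?_ (S.close Y _ (S.near_sub V Y _ h1.subW h))
        have : C * S.t Y ≤ S.tau X Y := by
          unfold tau
          have : C ≤ (X : ℝ) ^ (S.dim Y + 1) := le_trans hXC (by
            calc (X : ℝ) = (X : ℝ) ^ 1 := (pow_one _).symm
              _ ≤ _ := pow_le_pow_right₀ hX1 (by omega))
          gcongr
        linarith
      · exact Or.inr h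
  have hCpos : 0 < C := by linarith
  have hN1 : ((N + 1 : ℕ) : ℝ) ≤ 2 * A * X := by
    push_cast
    rw [hNR]
    nlinarith
  have hBge : C * ((N + 1 : ℕ) : ℝ) * S.t V ≤ κ' * S.tau X V := by
    have hp : (X : ℝ) ^ 2 ≤ (X : ℝ) ^ (S.dim V + 1) := pow_le_pow_right₀ hX1 (by omega)
    calc C * ((N + 1 : ℕ) : ℝ) * S.t V ≤ C * (2 * A * X) * S.t V := by gcongr
      _ = (2 * C * A) * X * S.t V := by ring
      _ ≤ (κ' * X) * X * S.t V := by
        have : 2 * C * A ≤ κ' * X := le_trans hXκ (by gcongr)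
        gcongr
      _ = κ' * ((X : ℝ) ^ 2 * S.t V) := by ring
      _ ≤ κ' * S.tau X V := by unfold tau; gcongr
  obtain ⟨V', g1, g2, g3, g4⟩ := S.bez2 V (N + 1) f _ (by omega) hV hfVlev hfV hBge hval hcase
  have htV' := S.one_le_t V'
  have hden : 0 < C * ((N + 1 : ℕ) : ℝ) * S.t V := by positivity
  refine ⟨V', g2, S.val_anti V' _ _ ?_ g4, ?_⟩
  · -- κ'/(2CA) τ(V') ≤ B/(C(N+1)tV) tV'
    rw [div_mul_eq_mul_div, div_mul_eq_mul_div, div_le_div_iff₀ (by positivity) hden]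
    have : S.tau X V' = (X : ℝ) ^ (S.dim V) * S.t V' := by unfold tau; rw [g2]
    rw [this]
    unfold tau
    calc κ' * ((X : ℝ) ^ (S.dim V) * S.t V') * (C * ((N + 1 : ℕ) : ℝ) * S.t V)
        ≤ κ' * ((X : ℝ) ^ (S.dim V) * S.t V') * (C * (2 * A * X) * S.t V) := by gcongr
      _ = _ := by ring
  · have : S.tau X V' = (X : ℝ) ^ (S.dim V) * S.t V' := by unfold tau; rw [g2]
    rw [this, div_mul_eq_mul_div, div_le_iff₀ (by positivity)]
    calc κ' * ((X : ℝ) ^ (S.dim V) * S.t V')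
        ≤ κ' * ((X : ℝ) ^ (S.dim V) * (C * ((N + 1 : ℕ) : ℝ) * S.t V)) := by gcongr
      _ ≤ κ' * ((X : ℝ) ^ (S.dim V) * (C * (2 * A * X) * S.t V)) := by gcongr
      _ = (κ' * S.tau X V) * (2 * C * A) := by unfold tau; ring
      _ ≤ B₀ * (2 * C * A) := by gcongr

/-- the descent to dimension zero -/
lemma descend (hC : 1 ≤ C) (S : Sys m C X₀) : ∃ κ : ℝ, 0 < κ ∧ κ ≤ 1 ∧ ∃ X₁ : ℕ, ∀ X : ℕ, X₁ ≤ X →
    ∀ B₀ : ℝ, (∀ Y, S.val Y (S.tau X Y) → B₀ ≤ 2 * S.tau X Y) → ∀ Y₀, S.val Y₀ (S.tau X Y₀) →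
    S.tau X Y₀ ≤ B₀ → ∃ Z, S.dim Z = 0 ∧ S.val Z (κ * S.tau X Z) ∧ κ * S.tau X Z ≤ B₀ := by
  have hg := S.g1_pos hC
  obtain ⟨A, hA⟩ := exists_nat_gt (max 1 (8 / S.g1))
  have hA1 : (1 : ℝ) < A := lt_of_le_of_lt (le_max_left _ _) hA
  have hA8 : 8 / S.g1 < A := lt_of_le_of_lt (le_max_right _ _) hA
  have hA1n : 1 ≤ A := by exact_mod_cast hA1.le
  have hA2 : 8 ≤ S.g1 * (A : ℝ) ^ 2 := by
    rw [div_lt_iff₀ hg] at hA8
    have : (A : ℝ) ≤ (A : ℝ) ^ 2 := by nlinarith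
    nlinarith
  set L : ℝ := 2 * C * A with hL
  have hL1 : 1 ≤ L := by rw [hL]; nlinarith
  have hL0 : 0 < L := by linarith
  set κ : ℝ := (1 / L) ^ m with hκ
  have hκ0 : 0 < κ := by positivity
  have hκ1 : κ ≤ 1 := pow_le_one₀ (by positivity) (by rw [div_le_one hL0]; exact hL1)
  obtain ⟨X₂, hX₂⟩ := exists_nat_gt (max (4 * C / S.g1) (max C (L / κ)))
  refine ⟨κ, hκ0, hκ1, max X₂ (max X₀ 2), fun X hX B₀ hB₀ Y₀ hY₀ hle => ?_⟩
  have hX1 : X₂ ≤ X := le_trans (le_max_left _ _) hX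
  have hX0 : max X₀ 2 ≤ X := le_trans (le_max_right _ _) hX
  have hXR : max (4 * C / S.g1) (max C (L / κ)) < X :=
    lt_of_lt_of_le hX₂ (by exact_mod_cast hX1)
  have hXg : 4 * C ≤ S.g1 * X := by
    have : 4 * C / S.g1 < X := lt_of_le_of_lt (le_max_left _ _) hXR
    rw [div_lt_iff₀ hg] at this
    linarith
  have hXC : C ≤ X := by
    have : C < X := lt_of_le_of_lt (le_trans (le_max_left _ _) (le_max_right _ _)) hXR
    exact this.le
  have hXκ : 2 * C * A ≤ κ * X := by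
    have : L / κ < X := lt_of_le_of_lt (le_trans (le_max_right _ _) (le_max_right _ _)) hXR
    rw [div_lt_iff₀ hκ0] at this
    linarith
  -- induction on the dimension
  have key : ∀ n : ℕ, ∀ V : S.V, S.dim V = n → ∀ κ' : ℝ, κ * L ^ n ≤ κ' → κ' ≤ 1 →
      S.val V (κ' * S.tau X V) → κ' * S.tau X V ≤ B₀ →
      ∃ Z, S.dim Z = 0 ∧ S.val Z (κ * S.tau X Z) ∧ κ * S.tau X Z ≤ B₀ := by
    intro n
    induction n with
    | zero =>
      intro V hV κ' h1 h2 h3 h4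
      simp only [pow_zero, mul_one] at h1
      have htau : 0 ≤ S.tau X V := by
        linarith [S.one_le_tau (by have := le_max_right X₀ 2; omega : 1 ≤ X) V]
      have : κ * S.tau X V ≤ κ' * S.tau X V := by gcongr
      exact ⟨V, hV, S.val_anti V _ _ this h3, this.trans h4⟩
    | succ n ih =>
      intro V hV κ' h1 h2 h3 h4
      have hκκ' : κ ≤ κ' := by
        calc κ = κ * 1 := (mul_one _).symm
          _ ≤ κ * L ^ (n + 1) := by
            have : 1 ≤ L ^ (n + 1) := one_le_pow₀ hL1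
            gcongr
          _ ≤ κ' := h1
      obtain ⟨V', e1, e2, e3⟩ := S.descend_step hC A hA1n hA2 κ X hX0 hXg hXC hXκ B₀ hB₀ V
        (by omega) κ' hκκ' h2 hκ0 h3 h4
      refine ih V' (by omega) (κ' / L) ?_ ?_ e2 e3
      · rw [le_div_iff₀ hL0]
        calc κ * L ^ n * L = κ * L ^ (n + 1) := by ring
          _ ≤ κ' := h1
      · rw [div_le_one hL0]; linarith
  refine key (S.dim Y₀) Y₀ rfl 1 ?_ le_rfl (by simpa using hY₀) (by simpa using hle)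
  rw [hκ]
  calc (1 / L) ^ m * L ^ (S.dim Y₀) ≤ (1 / L) ^ m * L ^ m := by
        gcongr
        exact S.dim_le Y₀
    _ = 1 := by rw [← mul_pow, one_div_mul_cancel hL0.ne', one_pow]

/-- the key trick: closeness is not shared -/
lemma key_trick (hC : 1 ≤ C) (S : Sys m C X₀) (κ : ℝ) (hκ0 : 0 < κ) :
    ∃ E : ℕ, 1 ≤ E ∧ ∃ N₀ : ℕ, ∀ N : ℕ, N₀ ≤ N → ∀ Z, S.dim Z = 0 →
      S.val Z (κ * S.tau (E * N) Z) → ∃ (Y : S.V) (T : ℕ) (Q : ℝ), S.State S.k1 Z T Y Q ∧ T ≤ N ∧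
        S.NoVan Z Y (N + 1) ∧ S.t Y ≤ (2 * C * N) ^ (m - S.dim Y) * S.t S.top ∧
        S.near Z (S.g1 / 4 * (N : ℝ) ^ (S.dim Y + 1) * S.t Y) := by
  have hg := S.g1_pos hC
  have hCpos : 0 < C := by linarith
  obtain ⟨E, hE⟩ := exists_nat_gt (max 1 (4 * C / κ))
  have hE1 : (1 : ℝ) < E := lt_of_le_of_lt (le_max_left _ _) hE
  have hEκ : 4 * C < κ * E := by
    have : 4 * C / κ < E := lt_of_le_of_lt (le_max_right _ _) hE
    rw [div_lt_iff₀ hκ0] at this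
    linarith
  have hE1n : 1 ≤ E := by exact_mod_cast hE1.le
  obtain ⟨N₁, hN₁⟩ := exists_nat_gt (4 * C / S.g1)
  refine ⟨E, hE1n, max N₁ (max X₀ 2), fun N hN Z hZ hval => ?_⟩
  have hN1 : N₁ ≤ N := le_trans (le_max_left _ _) hN
  have hN0 : max X₀ 2 ≤ N := le_trans (le_max_right _ _) hN
  have hN2 : 2 ≤ N := le_trans (le_max_right _ _) hN0
  have hNpos : (0 : ℝ) < N := by exact_mod_cast (by omega : 0 < N)
  have hN1' : (1 : ℝ) ≤ N := by exact_mod_cast (by omega : 1 ≤ N)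
  have hNg : 4 * C ≤ S.g1 * N := by
    have : 4 * C / S.g1 < N := lt_of_lt_of_le hN₁ (by exact_mod_cast hN1)
    rw [div_lt_iff₀ hg] at this
    linarith
  obtain ⟨Y, T, Q, h1, h2, h3, h4⟩ := S.hull_top hC Z N hN0
  refine ⟨Y, T, Q, h1, h2, h3, h4, ?_⟩
  have hgr := h1.gr hC (S.k1_pos hC) h2
  obtain ⟨f, hf1, hf2, hf3⟩ := S.dir Y N (by omega)
  have hfZ : ¬ S.van Z f := h3 f hf1 hf2
  have hfZlev : S.lev Z (N + 1) f := S.lev_sub Z Y (N + 1) f h1.subW hf1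
  have htY := S.one_le_t Y
  have htZ := S.one_le_t Z
  have htauZ : S.tau (E * N) Z = (E : ℝ) * N * S.t Z := by
    unfold tau; rw [hZ]; push_cast; ring
  -- the function is not far
  have hnear : S.near Z (S.cnt Y N / 2 - C * N) := by
    rcases S.dich Z f _ hf3 with h | h
    · exact h
    · exfalso
      have hl := S.liou Z (N + 1) f _ hZ (by omega) hfZlev hfZ hval h
      rw [htauZ] at hl
      have e1 : ((N + 1 : ℕ) : ℝ) ≤ 2 * N := by push_cast; linarith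
      have e2 : C * ((N + 1 : ℕ) : ℝ) * S.t Z ≤ C * (2 * N) * S.t Z := by gcongr
      have e3 : κ * ((E : ℝ) * N * S.t Z) = (κ * E) * (N * S.t Z) := by ring
      have e4 : C * (2 * N) * S.t Z = (2 * C) * (N * S.t Z) := by ring
      have e5 : 0 < (N : ℝ) * S.t Z := by positivity
      rw [e3] at hl
      rw [e4] at e2
      have : (κ * E) * (N * S.t Z) ≤ (2 * C) * (N * S.t Z) := hl.trans e2
      have := le_of_mul_le_mul_right this e5
      linarith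
  by_cases hd : 1 ≤ S.dim Y
  · refine S.near_anti Z _ _ ?_ hnear
    have e1 : S.g1 * (N : ℝ) ^ (S.dim Y + 1) * S.t Y ≤ S.cnt Y N := hgr
    have e2 : C * N ≤ S.g1 / 4 * (N : ℝ) ^ (S.dim Y + 1) * S.t Y := by
      have hp : (N : ℝ) ^ 2 ≤ (N : ℝ) ^ (S.dim Y + 1) := pow_le_pow_right₀ hN1' (by omega)
      calc C * N = (4 * C) * N / 4 := by ring
        _ ≤ (S.g1 * N) * N / 4 := by gcongr
        _ = S.g1 / 4 * (N : ℝ) ^ 2 * 1 := by ring
        _ ≤ _ := by gcongr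
    linarith
  · have hd0 : S.dim Y = 0 := by omega
    rw [hd0]
    by_cases hb : 4 * C / S.g1 ≤ S.t Y
    · refine S.near_anti Z _ _ ?_ hnear
      have e1 : S.g1 * (N : ℝ) ^ (S.dim Y + 1) * S.t Y ≤ S.cnt Y N := hgr
      rw [hd0] at e1
      rw [div_le_iff₀ hg] at hb
      have e2 : C * N ≤ S.g1 / 4 * (N : ℝ) ^ (0 + 1) * S.t Y := by
        calc C * N = (4 * C) * N / 4 := by ring
          _ ≤ (S.t Y * S.g1) * N / 4 := by gcongr
          _ = _ := by ring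
      rw [zero_add, pow_one] at e1 e2 ⊢
      linarith
    · push Not at hb
      have hbig : 0 ≤ κ * S.tau (E * N) Z := by rw [htauZ]; positivity
      have havg := S.avg Z _ hZ hbig hval
      refine S.near_anti Z _ _ ?_ havg
      rw [htauZ]
      have e1 : κ * ((E : ℝ) * N * S.t Z) / S.t Z = κ * E * N := by
        field_simp
      rw [e1]
      rw [lt_div_iff₀ hg] at hb
      have e2 : S.g1 / 4 * (N : ℝ) ^ (0 + 1) * S.t Y ≤ C * N := by
        calc S.g1 / 4 * (N : ℝ) ^ (0 + 1) * S.t Y = (S.t Y * S.g1) * N / 4 := by ring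
          _ ≤ (4 * C) * N / 4 := by gcongr
          _ = C * N := by ring
      have e3 : 4 * C * N ≤ κ * E * N := by gcongr
      have e4 : C ≤ C * N := by nlinarith
      nlinarith

end Sys

end Pool.Agent.Helper21.LR
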