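import Pool.Agent.Helper21.LR.Main3

/-!
MP_6358c9_nt: the abstract descent, part 4 (iteration and the main theorem).
-/

namespace Pool.Agent.Helper21.LR

namespace Sys

variable {m : ℕ} {C : ℝ} {X₀ : ℕ}

/-- all flags at once -/
lemma flags (hC : 1 ≤ C) (hm : 1 ≤ m) (S : Sys m C X₀) :
    ∃ K : ℝ, 1 ≤ K ∧ ∀ Z : S.V, S.dim Z = 0 → ∀ k ≤ m, ∃ W : S.V, S.sub Z W ∧ S.dim W = k ∧
      S.t W ^ m ≤ K * S.t Z ^ (m - k) := by
  classical
  have h : ∀ i : Fin (m + 1), ∃ K : ℝ, 1 ≤ K ∧ ∀ Z : S.V, S.dim Z = 0 → ∃ (T : ℕ) (W : S.V) (Q : ℝ),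
      S.State (1 / S.Qtop / sc m C ^ (i : ℕ)) Z T W Q ∧ S.dim W + i = m ∧
      S.t W ^ m ≤ K * S.t Z ^ (i : ℕ) := fun i => S.flag hC hm i (by omega)
  choose K hK1 hK using h
  refine ⟨∑ i, K i, ?_, fun Z hZ k hk => ?_⟩
  · calc (1 : ℝ) ≤ K 0 := hK1 0
      _ ≤ ∑ i, K i := Finset.single_le_sum (f := K) (fun i _ => by linarith [hK1 i])
        (Finset.mem_univ 0)
  · obtain ⟨T, W, Q, h1, h2, h3⟩ := hK ⟨m - k, by omega⟩ Z hZ
    refine ⟨W, h1.subW, by simp at h2; omega, h3.trans ?_⟩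
    have hle : K ⟨m - k, by omega⟩ ≤ ∑ i, K i :=
      Finset.single_le_sum (f := K) (fun i _ => by linarith [hK1 i]) (Finset.mem_univ _)
    have htZ := S.one_le_t Z
    have : (0 : ℝ) ≤ S.t Z ^ (m - k) := by positivity
    exact mul_le_mul_of_nonneg_right hle this

/-- the alternative: either the hull at level `K X` is of dimension zero, or `t(Z)` is large -/
lemma caseAB (hC : 1 ≤ C) (S : Sys m C X₀) (E K : ℕ) (hE : 1 ≤ E) (hK : 1 ≤ K) (N : ℕ)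
    (hN : max X₀ 2 ≤ N) (Z : S.V) (hZ : S.dim Z = 0) (Y : S.V) (T : ℕ) (Q : ℝ)
    (h1 : S.State S.k1 Z T Y Q) (h2 : T ≤ N) (h3 : S.NoVan Z Y (N + 1)) :
    (∃ Z', S.sub Z Z' ∧ S.dim Z' = 0 ∧ S.t Z' ≤ (2 * C * (K * (E * N) : ℕ)) ^ (S.dim Y) * S.t Y) ∨
    S.g2 * S.g1 / (C ^ 2 * (E : ℝ) ^ m) * K * S.tau (E * N) Y ≤ S.tau (E * N) Z := by
  have hsc := sc_ge (m := m) hC
  have hk1 := S.k1_pos hC
  have hCpos : 0 < C := by linarith
  have hN2 : 2 ≤ N := le_trans (le_max_right _ _) hN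
  have hNE : N ≤ K * (E * N) := by
    calc N = 1 * (1 * N) := by ring
      _ ≤ K * (E * N) := Nat.mul_le_mul hK (Nat.mul_le_mul hE le_rfl)
  obtain ⟨Y₂, T₂, Q₂, e1, e2, e3, e4, e5⟩ := h1.hull hC (S.dim Y) hk1 rfl (K * (E * N))
    (h2.trans hNE)
  by_cases hd : S.dim Y₂ = 0
  · left
    refine ⟨Y₂, e2.subW, hd, ?_⟩
    rw [hd, Nat.sub_zero] at e5
    exact e5
  · right
    have e2' : S.State S.k2 Z T₂ Y₂ Q₂ := e2.mono (by
      unfold k2
      apply div_le_div_of_nonneg_left hk1.le (by positivity)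
      exact pow_le_pow_right₀ hsc (S.dim_le Y))
    have hg1 := S.g1_pos hC
    have hg2 := S.g2_pos hC
    have htY := S.one_le_t Y
    have htY₂ := S.one_le_t Y₂
    have htZ := S.one_le_t Z
    have hEpos : (0 : ℝ) < E := by exact_mod_cast (by omega : 0 < E)
    have hKpos : (0 : ℝ) < K := by exact_mod_cast (by omega : 0 < K)
    have hNpos : (0 : ℝ) < N := by exact_mod_cast (by omega : 0 < N)
    set X : ℕ := E * N with hX
    have hXR : (X : ℝ) = E * N := by rw [hX]; push_cast; ring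
    have hXpos : (0 : ℝ) < X := by rw [hXR]; positivity
    have hdd : S.dim Y₂ ≤ S.dim Y := S.dim_mono _ _ e1
    -- first estimate: S.g2 * (K X)^{dim Y₂} t Y₂ ≤ C t Z
    have a1 := e2'.gr hC (S.k2_pos hC) e3
    have a2 := S.inj Z Y₂ (K * X) (by omega) e2.subW e4
    have a3 := S.upper Z (K * X) (by omega)
    rw [hZ, zero_add, pow_one] at a3
    have hKXR : ((K * X : ℕ) : ℝ) = K * X := by push_cast; ring
    have hKXpos : (0 : ℝ) < ((K * X : ℕ) : ℝ) := by rw [hKXR]; positivity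
    have a4 : S.g2 * ((K * X : ℕ) : ℝ) ^ (S.dim Y₂) * S.t Y₂ ≤ C * S.t Z := by
      have : S.g2 * ((K * X : ℕ) : ℝ) ^ (S.dim Y₂) * S.t Y₂ * ((K * X : ℕ) : ℝ) ≤
          C * S.t Z * ((K * X : ℕ) : ℝ) := by
        calc _ = S.g2 * ((K * X : ℕ) : ℝ) ^ (S.dim Y₂ + 1) * S.t Y₂ := by ring
          _ ≤ S.cnt Y₂ (K * X) := a1
          _ ≤ S.cnt Z (K * X) := a2
          _ ≤ _ := a3
          _ = _ := by ring
      exact le_of_mul_le_mul_right this hKXpos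
    -- second estimate
    have b1 := h1.gr hC hk1 h2
    have b2 := S.inj Y₂ Y N (by omega) e1 (fun f hf hfY hfY₂ =>
      h3 f hf hfY (S.van_sub Z Y₂ f e2.subW hfY₂))
    have b3 := S.upper Y₂ N (by omega)
    have b4 : S.g1 * (N : ℝ) ^ (S.dim Y - S.dim Y₂) * S.t Y ≤ C * S.t Y₂ := by
      have : S.g1 * (N : ℝ) ^ (S.dim Y - S.dim Y₂) * S.t Y * (N : ℝ) ^ (S.dim Y₂ + 1) ≤
          C * S.t Y₂ * (N : ℝ) ^ (S.dim Y₂ + 1) := by
        calc _ = S.g1 * ((N : ℝ) ^ (S.dim Y - S.dim Y₂) * (N : ℝ) ^ (S.dim Y₂ + 1)) * S.t Y := by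
              ring
          _ = S.g1 * (N : ℝ) ^ (S.dim Y + 1) * S.t Y := by
              rw [← pow_add]
              congr 3
              omega
          _ ≤ S.cnt Y N := b1
          _ ≤ S.cnt Y₂ N := b2
          _ ≤ _ := b3
          _ = _ := by ring
      exact le_of_mul_le_mul_right this (by positivity)
    -- K ≤ K^{dim Y₂}
    have hKd : (K : ℝ) ≤ (K : ℝ) ^ (S.dim Y₂) := by
      calc (K : ℝ) = (K : ℝ) ^ 1 := (pow_one _).symm
        _ ≤ _ := pow_le_pow_right₀ (by exact_mod_cast hK) (by omega)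
    have hEm : (E : ℝ) ^ (S.dim Y - S.dim Y₂) ≤ (E : ℝ) ^ m :=
      pow_le_pow_right₀ (by exact_mod_cast hE) (by have := S.dim_le Y; omega)
    -- combine
    have c1 : S.g2 * S.g1 * K * (X : ℝ) ^ (S.dim Y) * S.t Y ≤
        C ^ 2 * (E : ℝ) ^ m * S.t Z := by
      calc S.g2 * S.g1 * K * (X : ℝ) ^ (S.dim Y) * S.t Y
          = S.g2 * S.g1 * K * ((X : ℝ) ^ (S.dim Y₂) * (X : ℝ) ^ (S.dim Y - S.dim Y₂)) * S.t Y := by
            rw [← pow_add]; congr 3; omega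
        _ = S.g2 * (K * (X : ℝ) ^ (S.dim Y₂)) * (E : ℝ) ^ (S.dim Y - S.dim Y₂) *
            (S.g1 * (N : ℝ) ^ (S.dim Y - S.dim Y₂) * S.t Y) := by
            rw [hXR, mul_pow (E : ℝ) (N : ℝ) (S.dim Y - S.dim Y₂)]; ring
        _ ≤ S.g2 * ((K : ℝ) ^ (S.dim Y₂) * (X : ℝ) ^ (S.dim Y₂)) * (E : ℝ) ^ m *
            (C * S.t Y₂) := by gcongr
        _ = (S.g2 * ((K * X : ℕ) : ℝ) ^ (S.dim Y₂) * S.t Y₂) * (C * (E : ℝ) ^ m) := by
            rw [hKXR, mul_pow]; ring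
        _ ≤ (C * S.t Z) * (C * (E : ℝ) ^ m) := by gcongr
        _ = _ := by ring
    have hD : 0 < C ^ 2 * (E : ℝ) ^ m := by positivity
    have c2 : S.tau X Z = X * S.t Z := by unfold tau; rw [hZ, zero_add, pow_one]
    rw [c2]
    calc S.g2 * S.g1 / (C ^ 2 * (E : ℝ) ^ m) * K * S.tau X Y
        = (S.g2 * S.g1 * K * (X : ℝ) ^ (S.dim Y) * S.t Y) / (C ^ 2 * (E : ℝ) ^ m) * X := by
          unfold tau; ring
      _ ≤ (C ^ 2 * (E : ℝ) ^ m * S.t Z) / (C ^ 2 * (E : ℝ) ^ m) * X := by gcongr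
      _ = X * S.t Z := by field_simp

/-- conclusion of the main theorem with a given constant -/
def Succ (S : Sys m C X₀) (c R : ℝ) : Prop :=
  ∃ (Z : S.V) (b : ℝ), R ≤ b ∧ S.near Z b ∧ ∀ k < m,
    ∃ W, S.sub Z W ∧ S.dim W = k ∧ c * (S.t W) ^ (m+1) ≤ b ^ (m-k)

/-- success from case A -/
lemma succ_of_A (hC : 1 ≤ C) (hm : 1 ≤ m) (S : Sys m C X₀) (E K : ℕ) (hE : 1 ≤ E) (hK : 1 ≤ K) :
    ∃ c : ℝ, 0 < c ∧ ∀ N : ℕ, 1 ≤ N → ∀ (Z Y Z' : S.V),
      S.t Y ≤ (2 * C * N) ^ (m - S.dim Y) * S.t S.top →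
      S.near Z (S.g1 / 4 * (N : ℝ) ^ (S.dim Y + 1) * S.t Y) → S.sub Z Z' → S.dim Z' = 0 →
      S.t Z' ≤ (2 * C * (K * (E * N) : ℕ)) ^ (S.dim Y) * S.t Y → S.Succ c (S.g1 / 4 * N) := by
  obtain ⟨Kf, hKf1, hKf⟩ := S.flags hC hm
  have hg := S.g1_pos hC
  have hCpos : 0 < C := by linarith
  have hEpos : (0 : ℝ) < E := by exact_mod_cast (by omega : 0 < E)
  have hKpos : (0 : ℝ) < K := by exact_mod_cast (by omega : 0 < K)
  have hE1 : (1 : ℝ) ≤ E := by exact_mod_cast hE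
  have hK1 : (1 : ℝ) ≤ K := by exact_mod_cast hK
  have htt := S.one_le_t S.top
  set D : ℝ := 2 * C * K * E with hD
  have hD1 : 1 ≤ D := by
    rw [hD]
    have h1 : 1 ≤ 2 * C * K := by nlinarith
    nlinarith
  have hD0 : 0 < D := by linarith
  set c' : ℝ := (S.g1 / 4 / D ^ m) ^ m / (D ^ m * S.t S.top) with hc'
  have hc'0 : 0 < c' := by positivity
  set c'' : ℝ := min 1 c' with hc''
  have hc''0 : 0 < c'' := lt_min one_pos hc'0
  have hc''1 : c'' ≤ 1 := min_le_left _ _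
  set c : ℝ := c'' ^ m / Kf ^ (m + 1) with hc
  have hKf0 : 0 < Kf := by linarith
  have hc0 : 0 < c := by positivity
  have hc1 : c ≤ 1 := by
    rw [hc, div_le_one (by positivity)]
    exact le_trans (pow_le_one₀ hc''0.le hc''1) (one_le_pow₀ hKf1)
  refine ⟨c, hc0, fun N hN Z Y Z' htY hnear hsub hd htZ' => ?_⟩
  have hNpos : (0 : ℝ) < N := by exact_mod_cast (by omega : 0 < N)
  have hN1 : (1 : ℝ) ≤ N := by exact_mod_cast hN
  have htYpos := S.one_le_t Y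
  have htZ'pos := S.one_le_t Z'
  set d := S.dim Y with hdY
  have hdm : d ≤ m := S.dim_le Y
  set b : ℝ := S.g1 / 4 * (N : ℝ) ^ (d + 1) * S.t Y with hb
  have hcast : (2 * C * ((K * (E * N) : ℕ) : ℝ)) = D * N := by
    rw [hD]; push_cast; ring
  rw [hcast] at htZ'
  have hb0 : 0 < b := by positivity
  -- t Z' ≤ (D N)^m t top
  have f1 : S.t Z' ≤ D ^ m * (N : ℝ) ^ m * S.t S.top := by
    have h2C : 2 * C * N ≤ D * N := by
      have : 2 * C ≤ D := by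
        rw [hD]
        calc 2 * C = 2 * C * 1 * 1 := by ring
          _ ≤ 2 * C * K * E := by gcongr
      gcongr
    calc S.t Z' ≤ (D * N) ^ d * S.t Y := htZ'
      _ ≤ (D * N) ^ d * ((2 * C * N) ^ (m - d) * S.t S.top) := by gcongr
      _ ≤ (D * N) ^ d * ((D * N) ^ (m - d) * S.t S.top) := by gcongr
      _ = (D * N) ^ (d + (m - d)) * S.t S.top := by rw [pow_add]; ring
      _ = (D * N) ^ m * S.t S.top := by congr 2; omega
      _ = _ := by rw [mul_pow]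
  -- b ≥ g/4 N t Z' / D^m
  have f2 : S.g1 / 4 / D ^ m * N * S.t Z' ≤ b := by
    have h3 : S.t Z' ≤ D ^ m * ((N : ℝ) ^ d * S.t Y) := by
      calc S.t Z' ≤ (D * N) ^ d * S.t Y := htZ'
        _ = D ^ d * ((N : ℝ) ^ d * S.t Y) := by rw [mul_pow]; ring
        _ ≤ D ^ m * ((N : ℝ) ^ d * S.t Y) := by gcongr
    calc S.g1 / 4 / D ^ m * N * S.t Z' ≤ S.g1 / 4 / D ^ m * N * (D ^ m * ((N : ℝ) ^ d * S.t Y)) := by
          gcongr
      _ = b := by rw [hb, pow_succ]; field_simp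
  -- b^m ≥ c' t Z'^(m+1)
  have f3 : c' * S.t Z' ^ (m + 1) ≤ b ^ m := by
    have h4 : S.t Z' / (D ^ m * S.t S.top) ≤ (N : ℝ) ^ m := by
      rw [div_le_iff₀ (by positivity)]
      calc S.t Z' ≤ D ^ m * (N : ℝ) ^ m * S.t S.top := f1
        _ = _ := by ring
    calc c' * S.t Z' ^ (m + 1)
        = (S.g1 / 4 / D ^ m) ^ m * (S.t Z' / (D ^ m * S.t S.top)) * S.t Z' ^ m := by
          rw [hc', pow_succ]; ring
      _ ≤ (S.g1 / 4 / D ^ m) ^ m * (N : ℝ) ^ m * S.t Z' ^ m := by gcongr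
      _ = (S.g1 / 4 / D ^ m * N * S.t Z') ^ m := by rw [← mul_pow, ← mul_pow]
      _ ≤ b ^ m := by gcongr
  refine ⟨Z', b, ?_, S.near_sub Z Z' _ hsub hnear, fun k hk => ?_⟩
  · calc S.g1 / 4 * N = S.g1 / 4 * (N : ℝ) ^ 1 * 1 := by ring
      _ ≤ S.g1 / 4 * (N : ℝ) ^ (d + 1) * S.t Y := by
        gcongr
        omega
  · obtain ⟨W, w1, w2, w3⟩ := hKf Z' hd k hk.le
    refine ⟨W, w1, w2, ?_⟩
    have htW := S.one_le_t W
    -- (c t^{m+1})^m ≤ (b^{m-k})^m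
    have f4 : (c * S.t W ^ (m + 1)) ^ m ≤ (b ^ (m - k)) ^ m := by
      have hcm : c ^ m ≤ c'' ^ (m - k) / Kf ^ (m + 1) := by
        calc c ^ m ≤ c ^ 1 := pow_le_pow_of_le_one hc0.le hc1 hm
          _ = c'' ^ m / Kf ^ (m + 1) := by rw [pow_one]
          _ ≤ c'' ^ (m - k) / Kf ^ (m + 1) := by
            have := pow_le_pow_of_le_one hc''0.le hc''1 (Nat.sub_le m k)
            gcongr
      have hc''le : c'' ≤ c' := min_le_right _ _
      calc (c * S.t W ^ (m + 1)) ^ m = c ^ m * (S.t W ^ m) ^ (m + 1) := by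
            rw [mul_pow, ← pow_mul, ← pow_mul, mul_comm (m + 1) m]
        _ ≤ (c'' ^ (m - k) / Kf ^ (m + 1)) * (Kf * S.t Z' ^ (m - k)) ^ (m + 1) := by gcongr
        _ = c'' ^ (m - k) * (S.t Z' ^ (m + 1)) ^ (m - k) := by
            rw [mul_pow, ← pow_mul, ← pow_mul, mul_comm (m - k) (m + 1)]
            field_simp
        _ = (c'' * S.t Z' ^ (m + 1)) ^ (m - k) := by rw [mul_pow]
        _ ≤ (c' * S.t Z' ^ (m + 1)) ^ (m - k) := by gcongr
        _ ≤ (b ^ m) ^ (m - k) := by gcongr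
        _ = (b ^ (m - k)) ^ m := by rw [← pow_mul, ← pow_mul, mul_comm]
    exact (pow_le_pow_iff_left₀ (by positivity) (by positivity) (by omega)).1 f4

end Sys

end Pool.Agent.Helper21.LR
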