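import Pool.Agent.Helper21.LR.Stmts2
import Pool.Agent.Helper93.LRMeet1
import Pool.Agent.Helper94.LR.Meet2

/-!
MP_6358c9_nt: small facts for the assembly.
-/

open MvPolynomial

namespace Pool.Agent.Helper21.LR

theorem onV_refl {m : ℕ} (ξ : Fin m → ℂ) : OnV ξ ξ := fun _ h => h

theorem onV_trans {m : ℕ} {ξ η p : Fin m → ℂ} (h1 : OnV ξ η) (h2 : OnV η p) : OnV ξ p :=
  fun Q hQ => h2 Q (h1 Q hQ)

theorem dimMono : SMono := by
  classical
  intro m r r' ξ η F F' hξ hη hV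
  obtain ⟨J, hJη, hJc⟩ := Pool.Agent.Helper93.LRM.indep_coords η
  have hJξ : AlgebraicIndependent ℤ (fun j : J => ξ j) := by
    rw [algebraicIndependent_iff]
    intro P hP
    have h1 : aeval ξ (rename ((↑) : J → Fin m) P) = 0 := by
      rw [aeval_rename]; exact hP
    have h2 := hV _ h1
    rw [aeval_rename] at h2
    exact (algebraicIndependent_iff.1 hJη) P h2
  have hind : (AlgebraicIndependent.matroid ℤ ℂ).Indep (ξ '' J) :=
    AlgebraicIndependent.matroid_indep_iff.2 hJξ.image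
  have hinj : Set.InjOn ξ J := Set.injOn_iff_injective.2 hJξ.injective
  have hcard : (ξ '' J).encard = J.encard := hinj.encard_image
  have h1 : (ξ '' J).encard ≤ trd ξ := by
    rw [trd, rk, ← hind.eRk_eq_encard]
    exact (AlgebraicIndependent.matroid ℤ ℂ).eRk_mono (Set.image_subset_range _ _)
  rw [hcard, hJc, hη.dim, hξ.dim] at h1
  exact_mod_cast h1

theorem chow_val {m r : ℕ} {ξ : Fin m → ℂ} {F : MvPolynomial (Fin (r+1) × Fin (m+1)) ℤ}
    (h : IsVar r ξ F) {p : Fin m → ℂ} (hp : OnV ξ p) (B : ℝ) : Val p F B := by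
  intro u _
  have h1 : ∀ u, aeval (thr ξ u) F = 0 := (h.chow.2 F).2 dvd_rfl
  rw [Pool.Agent.Helper93.LRM.vanish_of_onV hp F h1 u, norm_zero]
  exact (Real.exp_pos _).le

theorem chowForm_of_var (h1 : SMeet1) (h2 : SMeet2) {m r : ℕ} {ξ : Fin m → ℂ}
    {F : MvPolynomial (Fin (r+1) × Fin (m+1)) ℤ} (h : IsVar r ξ F) :
    IsChowForm {x | OnV ξ x} r F := by
  have hP : Prime F := Pool.Agent.Helper94.LR.prime_of_chow h.chow
  refine ⟨?_, hP.irreducible.squarefree, fun u => ⟨h2 m r ξ F h u, h1 m r ξ F h u⟩⟩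
  rintro n ⟨G, hG⟩
  rcases hP.irreducible.isUnit_or_isUnit hG with hu | hu
  · have := hu.map (constantCoeff : MvPolynomial (Fin (r+1) × Fin (m+1)) ℤ →+* ℤ)
    rwa [constantCoeff_C] at this
  · exfalso
    obtain ⟨v, hv⟩ := hu
    have hdvd : F ∣ C n := by
      refine ⟨(v⁻¹ : (MvPolynomial (Fin (r+1) × Fin (m+1)) ℤ)ˣ), ?_⟩
      rw [hG, ← hv, mul_assoc, Units.mul_inv, mul_one]
    have h3 : n = 0 := by
      have h4 := (h.chow.2 (C n)).2 hdvd 0
      rw [aeval_C] at h4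
      simpa using h4
    apply h.chow.1
    rw [hG, h3, C_0, zero_mul]

end Pool.Agent.Helper21.LR
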